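import Mathlib
import Pool.Agent.Lib.MP_85963d_gt.Defs3

/-!
# Calculus of the length integrand
-/

set_option autoImplicit false

open MeasureTheory Set Filter Topology Quaternion
open scoped Real ContDiff

namespace Pool.Agent.MP85963d.H52

/-- partial derivative of `Lg` in the first variable -/
noncomputable def LgP (P Q : ℝ) : ℝ :=
  -((P ^ 2 + 2 * Q ^ 2) / (Real.sqrt (P ^ 2 + Q ^ 2) * P ^ 3))

/-- partial derivative of `Lg` in the second variable -/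
noncomputable def LgQ (P Q : ℝ) : ℝ := Q / (Real.sqrt (P ^ 2 + Q ^ 2) * P ^ 2)

theorem sqrt_pos' {P : ℝ} (Q : ℝ) (hP : 0 < P) : 0 < Real.sqrt (P ^ 2 + Q ^ 2) :=
  Real.sqrt_pos.2 (by positivity)

theorem hasFDerivAt_Lg {P : ℝ} (Q : ℝ) (hP : 0 < P) :
    HasFDerivAt (fun z : ℝ × ℝ => Lg z.1 z.2)
      (LgP P Q • ContinuousLinearMap.fst ℝ ℝ ℝ + LgQ P Q • ContinuousLinearMap.snd ℝ ℝ ℝ)
      (P, Q) := by
  have hs := sqrt_pos' Q hP
  have hss : Real.sqrt (P ^ 2 + Q ^ 2) ^ 2 = P ^ 2 + Q ^ 2 := Real.sq_sqrt (by positivity)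
  have h1 : HasFDerivAt (fun z : ℝ × ℝ => z.1) (ContinuousLinearMap.fst ℝ ℝ ℝ) (P, Q) :=
    hasFDerivAt_fst
  have h2 : HasFDerivAt (fun z : ℝ × ℝ => z.2) (ContinuousLinearMap.snd ℝ ℝ ℝ) (P, Q) :=
    hasFDerivAt_snd
  have h3 := ((h1.pow 2).add (h2.pow 2)).sqrt (by
    show P ^ 2 + Q ^ 2 ≠ 0
    positivity)
  have h4 := h3.mul ((hasDerivAt_inv (x := P ^ 2) (by positivity)).comp_hasFDerivAt
    (P, Q) (h1.pow 2))
  refine (h4.congr_of_eventuallyEq (Eventually.of_forall fun z => ?_)).congr_fderiv ?_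
  · simp [Lg, div_eq_mul_inv]
  · generalize hN : Real.sqrt (P ^ 2 + Q ^ 2) = N at *
    ext
    · simp [LgP, hN]
      field_simp
      linear_combination (-2) * hss
    · simp [LgQ, hN]
      field_simp

theorem contDiffOn_Lg : ContDiffOn ℝ ∞ (fun z : ℝ × ℝ => Lg z.1 z.2) {z | 0 < z.1} := by
  intro z hz
  have hz' : (0:ℝ) < z.1 := hz
  apply ContDiffAt.contDiffWithinAt
  unfold Lg
  apply ContDiffAt.div
  · apply ContDiffAt.sqrt
    · fun_prop
    · positivity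
  · fun_prop
  · positivity

theorem isOpen_pos : IsOpen {z : ℝ × ℝ | 0 < z.1} := isOpen_lt continuous_const continuous_fst

/-- quantitative second order Taylor expansion on rectangles -/
theorem Lg_taylor (c B : ℝ) (hc : 0 < c) : ∃ K : ℝ, 0 ≤ K ∧ ∀ P Q P' Q' : ℝ,
    c ≤ P → P ≤ B → |Q| ≤ B → c ≤ P' → P' ≤ B → |Q'| ≤ B →
    |Lg P' Q' - Lg P Q - (LgP P Q * (P' - P) + LgQ P Q * (Q' - Q))|
      ≤ K * ((P' - P) ^ 2 + (Q' - Q) ^ 2) := by
  set G : ℝ × ℝ → ℝ := fun z => Lg z.1 z.2 with hG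
  set U : Set (ℝ × ℝ) := {z | 0 < z.1} with hU
  set R : Set (ℝ × ℝ) := Icc c B ×ˢ Icc (-B) B with hR
  have hRU : R ⊆ U := fun z hz => hc.trans_le hz.1.1
  have hRc : IsCompact R := isCompact_Icc.prod isCompact_Icc
  have hRconv : Convex ℝ R := (convex_Icc _ _).prod (convex_Icc _ _)
  have h1 : ContDiffOn ℝ ∞ (fderiv ℝ G) U := contDiffOn_Lg.fderiv_of_isOpen isOpen_pos (by simp)
  obtain ⟨M, hM⟩ : ∃ M, LipschitzOnWith M (fderiv ℝ G) R := by
    apply LocallyLipschitzOn.exists_lipschitzOnWith_of_compact hRc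
    intro z hz
    obtain ⟨M, t, ht, h⟩ := ((h1.contDiffAt (isOpen_pos.mem_nhds (hRU hz))).of_le
      (show (1 : WithTop ℕ∞) ≤ ∞ by exact_mod_cast le_top)).exists_lipschitzOnWith
    exact ⟨M, t, mem_nhdsWithin_of_mem_nhds ht, h⟩
  refine ⟨M, M.2, fun P Q P' Q' a1 a2 a3 b1 b2 b3 => ?_⟩
  have hz : (P, Q) ∈ R := ⟨⟨a1, a2⟩, abs_le.1 a3⟩
  have hz' : (P', Q') ∈ R := ⟨⟨b1, b2⟩, abs_le.1 b3⟩
  have hP : 0 < P := hc.trans_le a1
  have key : ‖G (P', Q') - G (P, Q) - (fderiv ℝ G (P, Q)) ((P', Q') - (P, Q))‖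
      ≤ ((M : ℝ) * ‖(P', Q') - (P, Q)‖) * ‖(P', Q') - (P, Q)‖ := by
    refine Convex.norm_image_sub_le_of_norm_hasFDerivWithin_le' (s := segment ℝ (P, Q) (P', Q'))
      (f' := fderiv ℝ G) ?_ ?_ (convex_segment _ _) (left_mem_segment _ _ _)
      (right_mem_segment _ _ _)
    · intro z hzs
      have : z ∈ U := hRU (hRconv.segment_subset hz hz' hzs)
      exact ((contDiffOn_Lg.differentiableOn (by simp)).differentiableAt
        (isOpen_pos.mem_nhds this)).hasFDerivAt.hasFDerivWithinAt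
    · intro z hzs
      have hzR : z ∈ R := hRconv.segment_subset hz hz' hzs
      have h3 : ‖fderiv ℝ G z - fderiv ℝ G (P, Q)‖ ≤ (M : ℝ) * ‖z - (P, Q)‖ := by
        have := hM.dist_le_mul z hzR (P, Q) hz
        rwa [dist_eq_norm, dist_eq_norm] at this
      refine h3.trans (mul_le_mul_of_nonneg_left ?_ M.2)
      rw [segment_eq_image'] at hzs
      obtain ⟨θ, hθ, rfl⟩ := hzs
      simp only [add_sub_cancel_left]
      rw [norm_smul, Real.norm_eq_abs, abs_of_nonneg hθ.1]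
      exact mul_le_of_le_one_left (norm_nonneg _) hθ.2
  rw [(hasFDerivAt_Lg Q hP).fderiv] at key
  have e1 : ((LgP P Q • ContinuousLinearMap.fst ℝ ℝ ℝ + LgQ P Q • ContinuousLinearMap.snd ℝ ℝ ℝ)
      ((P', Q') - (P, Q))) = LgP P Q * (P' - P) + LgQ P Q * (Q' - Q) := by
    simp
  rw [e1, Real.norm_eq_abs] at key
  refine key.trans ?_
  rw [mul_assoc]
  apply mul_le_mul_of_nonneg_left _ M.2
  have e2 : ‖(P', Q') - (P, Q)‖ = max |P' - P| |Q' - Q| := by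
    simp [Prod.norm_def]
  rw [e2, ← sq]
  rcases max_cases |P' - P| |Q' - Q| with ⟨h, _⟩ | ⟨h, _⟩ <;> rw [h, sq_abs]
  · nlinarith [sq_nonneg (Q' - Q)]
  · nlinarith [sq_nonneg (P' - P)]

theorem Lg_bound (c B : ℝ) (hc : 0 < c) : ∃ M : ℝ, 0 ≤ M ∧ ∀ P Q : ℝ,
    c ≤ P → P ≤ B → |Q| ≤ B → |Lg P Q| ≤ M := by
  have hRc : IsCompact (Icc c B ×ˢ Icc (-B) B) := isCompact_Icc.prod isCompact_Icc
  obtain ⟨M, hM⟩ := hRc.exists_bound_of_continuousOn
    (contDiffOn_Lg.continuousOn.mono fun z hz => hc.trans_le hz.1.1)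
  refine ⟨max M 0, le_max_right _ _, fun P Q a1 a2 a3 => ?_⟩
  exact (hM (P, Q) ⟨⟨a1, a2⟩, abs_le.1 a3⟩).trans (le_max_left _ _)

theorem continuousAt_Lg {P : ℝ} (Q : ℝ) (hP : 0 < P) :
    ContinuousAt (fun z : ℝ × ℝ => Lg z.1 z.2) (P, Q) := (hasFDerivAt_Lg Q hP).continuousAt

theorem Lg_neg (P Q : ℝ) : Lg P (-Q) = Lg P Q := by simp [Lg]
theorem LgP_neg (P Q : ℝ) : LgP P (-Q) = LgP P Q := by simp [LgP]
theorem LgQ_neg (P Q : ℝ) : LgQ P (-Q) = -LgQ P Q := by simp [LgQ, neg_div]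

/-- continuity along functions -/
theorem continuousOn_Lg {s : Set ℍ} {P Q : ℍ → ℝ} (hP : ContinuousOn P s) (hQ : ContinuousOn Q s)
    (hpos : ∀ x ∈ s, 0 < P x) : ContinuousOn (fun x => Lg (P x) (Q x)) s := by
  have h := contDiffOn_Lg.continuousOn
  exact h.comp (hP.prodMk hQ) fun x hx => hpos x hx

theorem continuousOn_LgP {s : Set ℍ} {P Q : ℍ → ℝ} (hP : ContinuousOn P s) (hQ : ContinuousOn Q s)
    (hpos : ∀ x ∈ s, 0 < P x) : ContinuousOn (fun x => LgP (P x) (Q x)) s := by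
  unfold LgP
  refine (ContinuousOn.div (by fun_prop) ?_ ?_).neg
  · exact (Real.continuous_sqrt.comp_continuousOn (by fun_prop)).mul (by fun_prop)
  · intro x hx
    have := hpos x hx
    have := sqrt_pos' (Q x) this
    positivity

theorem continuousOn_LgQ {s : Set ℍ} {P Q : ℍ → ℝ} (hP : ContinuousOn P s) (hQ : ContinuousOn Q s)
    (hpos : ∀ x ∈ s, 0 < P x) : ContinuousOn (fun x => LgQ (P x) (Q x)) s := by
  unfold LgQ
  refine ContinuousOn.div hQ ?_ ?_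
  · exact (Real.continuous_sqrt.comp_continuousOn (by fun_prop)).mul (by fun_prop)
  · intro x hx
    have := hpos x hx
    have := sqrt_pos' (Q x) this
    positivity

/-- one-dimensional derivative of `LgQ(P,Q)` when `P' = Q` -/
theorem hasDerivAt_LgQ {P Q : ℝ → ℝ} {R t : ℝ} (hP : 0 < P t) (h1 : HasDerivAt P (Q t) t)
    (h2 : HasDerivAt Q R t) :
    HasDerivAt (fun t => LgQ (P t) (Q t))
      ((P t + R) / Real.sqrt (P t ^ 2 + Q t ^ 2) ^ 3 + LgP (P t) (Q t)) t := by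
  have hs := sqrt_pos' (Q t) hP
  have hss : Real.sqrt (P t ^ 2 + Q t ^ 2) ^ 2 = P t ^ 2 + Q t ^ 2 :=
    Real.sq_sqrt (by positivity)
  have h3 := ((h1.pow 2).add (h2.pow 2)).sqrt (by
    show (P t) ^ 2 + (Q t) ^ 2 ≠ 0
    positivity)
  have h4 := h3.mul (h1.pow 2)
  have h5 := h2.div h4 (by
    show Real.sqrt ((P t) ^ 2 + (Q t) ^ 2) * (P t) ^ 2 ≠ 0
    positivity)
  refine (h5.congr_of_eventuallyEq (Eventually.of_forall fun z => ?_)).congr_deriv ?_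
  · simp [LgQ]
  · simp only [Pi.add_apply, Pi.pow_apply, Pi.mul_apply, LgP]
    generalize hN : Real.sqrt (P t ^ 2 + Q t ^ 2) = N at *
    generalize P t = p at *
    generalize Q t = q at *
    field_simp
    linear_combination (2 * R * p ^ 2 + 2 * p ^ 3) * hss

end Pool.Agent.MP85963d.H52
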