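import Mathlib
import Pool.Agent.Lib.MP_85963d_gt.H52.LgCalc

/-!
# Basic facts on norms, bounds and left multiplications
-/

set_option autoImplicit false

open MeasureTheory Set Filter Topology Quaternion
open scoped Real ContDiff

namespace Pool.Agent.MP85963d.H52

open SF

theorem cts_SF (F : SF) : Cts F := ⟨F.continuousOn, fun _ x hr _ => F.hom hr x⟩

theorem exists_shell {x : ℍ} (hx : x ≠ 0) : ∃ r : ℝ, r ≠ 0 ∧ r • x ∈ shell := by
  have hn : 0 < ‖x‖ := norm_pos_iff.2 hx
  refine ⟨‖x‖⁻¹, by positivity, ?_⟩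
  have : ‖(‖x‖⁻¹ : ℝ) • x‖ = 1 := by
    rw [norm_smul, norm_inv, norm_norm]
    field_simp
  rw [shell, mem_setOf_eq, this]
  norm_num

theorem Cts.bdd {f : ℍ → ℝ} (h : Cts f) : ∃ M : ℝ, 0 ≤ M ∧ ∀ x : ℍ, x ≠ 0 → |f x| ≤ M := by
  obtain ⟨M, hM⟩ := isCompact_shell.exists_bound_of_continuousOn (h.cont.mono shell_subset)
  refine ⟨max M 0, le_max_right _ _, fun x hx => ?_⟩
  obtain ⟨r, hr, hrx⟩ := exists_shell hx
  rw [← h.hom r x hr hx]
  exact (hM _ hrx).trans (le_max_left _ _)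

theorem SF_bdd (F : SF) : ∃ M : ℝ, 0 ≤ M ∧ ∀ x : ℍ, |F x| ≤ M := by
  obtain ⟨M, h0, hM⟩ := Cts.bdd (cts_SF F)
  refine ⟨M, h0, fun x => ?_⟩
  by_cases hx : x = 0
  · subst hx; rw [F.map_zero']; simpa using h0
  · exact hM x hx

theorem nrm_add_le {f g : ℍ → ℝ} (hf : ContinuousOn f {0}ᶜ) (hg : ContinuousOn g {0}ᶜ) :
    nrm (fun x => f x + g x) ≤ nrm f + nrm g := by
  have i1 : IntegrableOn (fun x => f x ^ 2) shell := integrableOn_shell (hf.pow 2)
  have i2 : IntegrableOn (fun x => g x ^ 2) shell := integrableOn_shell (hg.pow 2)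
  have i3 : IntegrableOn (fun x => f x * g x) shell := integrableOn_shell (hf.mul hg)
  have h1 : nrm (fun x => f x + g x) ^ 2 = nrm f ^ 2 + 2 * ip f g + nrm g ^ 2 := by
    rw [nrm_sq, nrm_sq, nrm_sq, ip]
    have e : (fun x => (f x + g x) ^ 2) = fun x => (f x ^ 2 + 2 * (f x * g x)) + g x ^ 2 := by
      funext x; ring
    have j3 : IntegrableOn (fun x => 2 * (f x * g x)) shell := i3.const_mul 2
    have j1 : IntegrableOn (fun x => f x ^ 2 + 2 * (f x * g x)) shell := i1.add j3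
    rw [e, integral_add j1 i2, integral_add i1 j3, integral_const_mul]
  have h2 := abs_le.1 (abs_ip_le hf hg)
  have h3 := nrm_nonneg f
  have h4 := nrm_nonneg g
  have h5 := nrm_nonneg (fun x => f x + g x)
  refine abs_le_of_sq_le_sq' (by rw [h1]; nlinarith) (by positivity) |>.2

theorem nrm_const_mul (c : ℝ) (f : ℍ → ℝ) : nrm (fun x => c * f x) = |c| * nrm f := by
  have h1 : nrm (fun x => c * f x) ^ 2 = (|c| * nrm f) ^ 2 := by
    rw [mul_pow, sq_abs, nrm_sq, nrm_sq, ← integral_const_mul]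
    congr 1; funext x; ring
  exact (sq_eq_sq₀ (nrm_nonneg _) (mul_nonneg (abs_nonneg _) (nrm_nonneg _))).1 h1

theorem coe_add (F G : SF) : ((F + G : SF) : ℍ → ℝ) = fun x => F x + G x :=
  funext (add_apply F G)
theorem coe_sub (F G : SF) : ((F - G : SF) : ℍ → ℝ) = fun x => F x - G x :=
  funext (sub_apply F G)
theorem coe_smul (c : ℝ) (F : SF) : ((c • F : SF) : ℍ → ℝ) = fun x => c * F x :=
  funext (smul_apply c F)

theorem nrm_SF_add (F G : SF) : nrm (F + G : SF) ≤ nrm F + nrm G := by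
  rw [coe_add]; exact nrm_add_le F.continuousOn G.continuousOn

theorem nrm_SF_smul (c : ℝ) (F : SF) : nrm (c • F : SF) = |c| * nrm F := by
  rw [coe_smul]; exact nrm_const_mul c F

theorem ener_nonneg (F : SF) : 0 ≤ ener F := add_nonneg (nrm_nonneg _) (nrm_nonneg _)

theorem ener_add (F G : SF) : ener (F + G) ≤ ener F + ener G := by
  unfold ener
  rw [map_add, map_add]
  have h1 := nrm_SF_add F G
  have h2 := nrm_SF_add (Lap (Lap F)) (Lap (Lap G))
  linarith

theorem ener_smul (c : ℝ) (F : SF) : ener (c • F) = |c| * ener F := by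
  unfold ener
  rw [map_smul, map_smul, nrm_SF_smul, nrm_SF_smul]
  ring

theorem ener_neg (F : SF) : ener (-F) = ener F := by
  have := ener_smul (-1) F
  simpa using this

theorem ener_zero : ener 0 = 0 := by
  have := ener_smul 0 0
  simpa using this

theorem nrm_le_ener (F : SF) : nrm F ≤ ener F := le_add_of_nonneg_left (nrm_nonneg _)

theorem ener_eq_zero {F : SF} (h : ener F = 0) : F = 0 := by
  apply eq_zero_of_nrm
  have h1 := nrm_le_ener F
  have h2 := nrm_nonneg F
  linarith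

/-! ### the normed space given by `ener` -/

/-- a subspace of `SF`, to be equipped with the norm `ener` -/
def Ew (W : Submodule ℝ SF) : Type := W

instance (W : Submodule ℝ SF) : AddCommGroup (Ew W) := inferInstanceAs (AddCommGroup W)
noncomputable instance (W : Submodule ℝ SF) : Module ℝ (Ew W) := inferInstanceAs (Module ℝ W)

/-- the inclusion -/
noncomputable def emb (W : Submodule ℝ SF) : Ew W →ₗ[ℝ] SF := W.subtype

theorem emb_mem {W : Submodule ℝ SF} (y : Ew W) : emb W y ∈ W := y.2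

theorem emb_inj {W : Submodule ℝ SF} {y : Ew W} (h : emb W y = 0) : y = 0 := Subtype.ext h

noncomputable instance (W : Submodule ℝ SF) : Norm (Ew W) := ⟨fun y => ener (emb W y)⟩

theorem norm_Ew {W : Submodule ℝ SF} (y : Ew W) : ‖y‖ = ener (emb W y) := rfl

theorem coreEw (W : Submodule ℝ SF) : NormedSpace.Core ℝ (Ew W) where
  norm_nonneg y := ener_nonneg _
  norm_smul c y := by
    rw [norm_Ew, norm_Ew, map_smul, ener_smul, Real.norm_eq_abs]
  norm_triangle x y := by
    rw [norm_Ew, norm_Ew, norm_Ew, map_add]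
    exact ener_add _ _
  norm_eq_zero_iff y := by
    constructor
    · intro h
      exact emb_inj (ener_eq_zero h)
    · rintro rfl
      rw [norm_Ew, map_zero, ener_zero]

noncomputable instance (W : Submodule ℝ SF) : NormedAddCommGroup (Ew W) :=
  NormedAddCommGroup.ofCore (coreEw W)
noncomputable instance (W : Submodule ℝ SF) : NormedSpace ℝ (Ew W) :=
  NormedSpace.ofCore (coreEw W)

theorem norm_Ew' {W : Submodule ℝ SF} (y : Ew W) : ‖y‖ = ener (emb W y) := rfl

/-- evaluation -/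
noncomputable def evL (W : Submodule ℝ SF) (x : ℍ) : Ew W →ₗ[ℝ] ℝ where
  toFun y := (emb W y) x
  map_add' y z := by rw [map_add, add_apply]
  map_smul' c y := by rw [map_smul, smul_apply]; rfl

/-- evaluation of the derivative -/
noncomputable def evD (W : Submodule ℝ SF) (x : ℍ) : Ew W →ₗ[ℝ] ℝ where
  toFun y := (DX (emb W y)) x
  map_add' y z := by rw [map_add, map_add, add_apply]
  map_smul' c y := by rw [map_smul, Derivation.map_smul, smul_apply]; rfl

theorem exists_bound_Ew (W : Submodule ℝ SF) [FiniteDimensional ℝ (Ew W)] : ∃ C : ℝ, 0 ≤ C ∧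
    ∀ (y : Ew W) (x : ℍ), |(emb W y) x| ≤ C * ‖y‖ ∧ |(DX (emb W y)) x| ≤ C * ‖y‖ := by
  classical
  let b := Module.finBasis ℝ (Ew W)
  have h1 : ∀ i, ∃ M : ℝ, 0 ≤ M ∧ ∀ x : ℍ, |(emb W (b i)) x| ≤ M ∧ |(DX (emb W (b i))) x| ≤ M := by
    intro i
    obtain ⟨M, h0, hM⟩ := SF_bdd (emb W (b i))
    obtain ⟨M', h0', hM'⟩ := SF_bdd (DX (emb W (b i)))
    exact ⟨max M M', h0.trans (le_max_left _ _), fun x =>
      ⟨(hM x).trans (le_max_left _ _), (hM' x).trans (le_max_right _ _)⟩⟩
  choose M hM0 hM using h1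
  let c : Fin (Module.finrank ℝ (Ew W)) → (Ew W →L[ℝ] ℝ) := fun i =>
    LinearMap.toContinuousLinearMap (b.coord i)
  have hc : ∀ i y, |b.coord i y| ≤ ‖c i‖ * ‖y‖ := fun i y => by
    have := (c i).le_opNorm y
    simpa [c] using this
  refine ⟨∑ i, ‖c i‖ * M i, Finset.sum_nonneg fun i _ => mul_nonneg (norm_nonneg _) (hM0 i),
    fun y x => ?_⟩
  have hy : emb W y = ∑ i, (b.coord i y) • emb W (b i) := by
    conv_lhs => rw [← b.sum_repr y]
    rw [map_sum]
    simp
  constructor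
  · rw [hy, sum_apply, Finset.sum_mul]
    refine (Finset.abs_sum_le_sum_abs _ _).trans (Finset.sum_le_sum fun i _ => ?_)
    rw [smul_apply, abs_mul, mul_right_comm]
    exact mul_le_mul (hc i y) (hM i x).1 (abs_nonneg _) (by positivity)
  · rw [hy, map_sum, sum_apply, Finset.sum_mul]
    refine (Finset.abs_sum_le_sum_abs _ _).trans (Finset.sum_le_sum fun i _ => ?_)
    rw [Derivation.map_smul, smul_apply, abs_mul, mul_right_comm]
    exact mul_le_mul (hc i y) (hM i x).2 (abs_nonneg _) (by positivity)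

/-! ### segments -/

theorem seg_apply (p₀ p₁ : SF) (s : ℝ) (x : ℍ) :
    (seg p₀ p₁ s) x = (1 - s) * p₀ x + s * p₁ x := by
  simp [seg]

theorem DX_seg (p₀ p₁ : SF) (s : ℝ) (x : ℍ) :
    (DX (seg p₀ p₁ s)) x = (1 - s) * (DX p₀) x + s * (DX p₁) x := by
  simp [seg, map_add, Derivation.map_smul]

theorem seg_zero (p₀ p₁ : SF) : seg p₀ p₁ 0 = p₀ := by simp [seg]
theorem seg_one (p₀ p₁ : SF) : seg p₀ p₁ 1 = p₁ := by simp [seg]

/-! ### right derivative and multiplications -/

theorem DX_lcomp {y z : SF} {ρ : ℍ} (hρ : ρ ≠ 0) (c : ℝ) (h : ∀ x : ℍ, z x = c * y (ρ * x)) (x : ℍ) :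
    (DX z) x = c * (DX y) (ρ * x) := by
  by_cases hx : x = 0
  · subst hx; rw [mul_zero, map_zero', map_zero', mul_zero]
  have h1 := hasDerivAt_DX z hx 0
  have h2 := (hasDerivAt_DX y (mul_ne_zero hρ hx) 0).const_mul c
  rw [rot_zero, mul_one] at h1 h2
  refine h1.unique (h2.congr_of_eventuallyEq (Eventually.of_forall fun t => ?_))
  simp only [h, mul_assoc]

end Pool.Agent.MP85963d.H52
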