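import Mathlib
import Pool.Agent.Lib.MP_85963d_gt.Interfaces
import Pool.Agent.Lib.MP_85963d_gt.H52.SFBasic

/-!
# First order expansion of the perimeter functional
-/

set_option autoImplicit false

open MeasureTheory Set Filter Topology Quaternion
open scoped Real ContDiff

namespace Pool.Agent.MP85963d.H52

open SF

theorem DX_of_IsE {ψ : SF} (hψ : IsE ψ) (x : ℍ) : (DX ψ) x = 0 := by
  by_cases hx : x = 0
  · subst hx; rw [map_zero']
  have h1 := hasDerivAt_DX ψ hx 0
  rw [rot_zero, mul_one] at h1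
  have h2 : HasDerivAt (fun t => ψ (x * rot qK t)) 0 0 := by
    refine (hasDerivAt_const (0:ℝ) (ψ x)).congr_of_eventuallyEq
      (Eventually.of_forall fun t => hψ.rotK x t)
  exact h1.unique h2

theorem contDiffOn_LgQ {P Q : ℍ → ℝ} (hP : ContDiffOn ℝ 1 P {0}ᶜ) (hQ : ContDiffOn ℝ 1 Q {0}ᶜ)
    (hpos : ∀ x : ℍ, x ≠ 0 → 0 < P x) : ContDiffOn ℝ 1 (fun x => LgQ (P x) (Q x)) {0}ᶜ := by
  unfold LgQ
  refine ContDiffOn.div hQ ?_ ?_
  · refine ContDiffOn.mul ?_ (hP.pow 2)
    refine ContDiffOn.sqrt ((hP.pow 2).add (hQ.pow 2)) fun x hx => ?_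
    have := hpos x hx
    positivity
  · intro x hx
    have := hpos x hx
    have := sqrt_pos' (Q x) this
    positivity

theorem ibp {P : SF} (hP : Adm P) (y ψ : SF) (hψ : ∀ x : ℍ, (DX ψ) x = 0) :
    ∫ x in shell, (LgP (P x) ((DX P) x) * y x + LgQ (P x) ((DX P) x) * (DX y) x) * ψ x
      = - ∫ x in shell, wf P x * y x * ψ x := by
  set c : ℍ → ℝ := fun x => LgQ (P x) ((DX P) x) * (y x * ψ x) with hc
  have hcs : ContDiffOn ℝ 1 c {0}ᶜ :=
    (contDiffOn_LgQ (P.contDiffOn 1) ((DX P).contDiffOn 1) hP.pos).mul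
      ((y.contDiffOn 1).mul (ψ.contDiffOn 1))
  have h0 := integral_L_eq_zero isImUnit_K hcs
  have h1 : ∀ x ∈ shell, L ((1 / 2 : ℝ) • qK) c x
      = (LgP (P x) ((DX P) x) * y x + LgQ (P x) ((DX P) x) * (DX y) x) * ψ x
        + wf P x * y x * ψ x := by
    intro x hx
    have hx0 := ne_zero_of_mem_shell hx
    have k1 := hasDerivAt_flow isImUnit_K hcs hx0 0
    have e0 : x * rot qK 0 = x := by rw [rot_zero, mul_one]
    rw [e0] at k1
    have kP := hasDerivAt_DX P hx0 0
    have kQ := hasDerivAt_DX (DX P) hx0 0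
    have ky := hasDerivAt_DX y hx0 0
    have kψ := hasDerivAt_DX ψ hx0 0
    have k2 := hasDerivAt_LgQ (P := fun t => P (x * rot qK t)) (Q := fun t => (DX P) (x * rot qK t))
      (by rw [e0]; exact hP.pos x hx0) kP kQ
    have k3 := k2.mul (ky.mul kψ)
    have k4 := k1.unique k3
    rw [k4]
    simp only [e0, hψ, Pi.mul_apply, wf]
    ring
  rw [setIntegral_congr_fun measurableSet_shell h1] at h0
  have c1 : ContinuousOn (fun x => (LgP (P x) ((DX P) x) * y x
      + LgQ (P x) ((DX P) x) * (DX y) x) * ψ x) {0}ᶜ :=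
    (((continuousOn_LgP P.continuousOn (DX P).continuousOn hP.pos).mul y.continuousOn).add
      ((continuousOn_LgQ P.continuousOn (DX P).continuousOn hP.pos).mul
        (DX y).continuousOn)).mul ψ.continuousOn
  have c2 : ContinuousOn (fun x => wf P x * y x * ψ x) {0}ᶜ := by
    refine (ContinuousOn.mul ?_ y.continuousOn).mul ψ.continuousOn
    unfold wf
    refine ContinuousOn.div (P.continuousOn.add (DX (DX P)).continuousOn) ?_ ?_
    · exact (Real.continuous_sqrt.comp_continuousOn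
        ((P.continuousOn.pow 2).add ((DX P).continuousOn.pow 2))).pow 3
    · intro x hx
      have := sqrt_pos' ((DX P) x) (hP.pos x hx)
      positivity
  rw [integral_add (integrableOn_shell c1) (integrableOn_shell c2)] at h0
  linarith

theorem volume_shell_lt : volume shell < ⊤ := isCompact_shell.measure_lt_top

/-- first order expansion with quadratic error -/
theorem expand (hWS : WSFacts) (c B : ℝ) (hc : 0 < c) : ∃ K : ℝ, 0 ≤ K ∧ ∀ P y ψ : SF, Adm P →
    Adm (P + y) → (∀ x : ℍ, (DX ψ) x = 0) →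
    (∀ x : ℍ, x ≠ 0 → c ≤ P x ∧ P x ≤ B ∧ |(DX P) x| ≤ B ∧ c ≤ (P + y) x ∧ (P + y) x ≤ B ∧
      |(DX (P + y)) x| ≤ B) →
    ∀ S M : ℝ, (∀ x : ℍ, |y x| ≤ S) → (∀ x : ℍ, |(DX y) x| ≤ S) → (∀ x : ℍ, |ψ x| ≤ M) →
    |ip (LgS (P + y)) ψ - ip (LgS P) ψ + ∫ x in shell, wf P x * y x * ψ x| ≤ K * S ^ 2 * M := by
  obtain ⟨K, hK, hT⟩ := Lg_taylor c B hc
  refine ⟨2 * K * (volume shell).toReal, by positivity, fun P y ψ hP hPy hψ hb S M hS hS' hM => ?_⟩
  have h1 : ∀ x ∈ shell, |(LgS (P + y)) x * ψ x - (LgS P) x * ψ x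
      - (LgP (P x) ((DX P) x) * y x + LgQ (P x) ((DX P) x) * (DX y) x) * ψ x|
      ≤ 2 * K * S ^ 2 * M := by
    intro x hx
    have hx0 := ne_zero_of_mem_shell hx
    obtain ⟨b1, b2, b3, b4, b5, b6⟩ := hb x hx0
    have h2 := hT _ _ _ _ b1 b2 b3 b4 b5 b6
    rw [hWS.LgS_apply _ hP x hx0, hWS.LgS_apply _ hPy x hx0]
    have e1 : (P + y) x - P x = y x := by rw [add_apply]; ring
    have e2 : (DX (P + y)) x - (DX P) x = (DX y) x := by rw [map_add, add_apply]; ring
    rw [e1, e2] at h2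
    have h3 : (y x) ^ 2 + (DX y) x ^ 2 ≤ 2 * S ^ 2 := by
      have a1 := sq_le_sq' (neg_le_of_abs_le (hS x)) (le_of_abs_le (hS x))
      have a2 := sq_le_sq' (neg_le_of_abs_le (hS' x)) (le_of_abs_le (hS' x))
      linarith
    rw [show Lg ((P + y) x) ((DX (P + y)) x) * ψ x - Lg (P x) ((DX P) x) * ψ x
      - (LgP (P x) ((DX P) x) * y x + LgQ (P x) ((DX P) x) * (DX y) x) * ψ x
      = (Lg ((P + y) x) ((DX (P + y)) x) - Lg (P x) ((DX P) x)
      - (LgP (P x) ((DX P) x) * y x + LgQ (P x) ((DX P) x) * (DX y) x)) * ψ x by ring, abs_mul]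
    calc _ ≤ (K * (2 * S ^ 2)) * M := by
          refine mul_le_mul (h2.trans (mul_le_mul_of_nonneg_left h3 hK)) (hM x) (abs_nonneg _) ?_
          positivity
      _ = _ := by ring
  have i1 : IntegrableOn (fun x => (LgS (P + y)) x * ψ x) shell :=
    integrableOn_shell ((LgS (P + y)).continuousOn.mul ψ.continuousOn)
  have i2 : IntegrableOn (fun x => (LgS P) x * ψ x) shell :=
    integrableOn_shell ((LgS P).continuousOn.mul ψ.continuousOn)
  have i3 : IntegrableOn (fun x => (LgP (P x) ((DX P) x) * y x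
      + LgQ (P x) ((DX P) x) * (DX y) x) * ψ x) shell := by
    refine integrableOn_shell ?_
    exact (((continuousOn_LgP P.continuousOn (DX P).continuousOn hP.pos).mul y.continuousOn).add
      ((continuousOn_LgQ P.continuousOn (DX P).continuousOn hP.pos).mul
        (DX y).continuousOn)).mul ψ.continuousOn
  have h4 := norm_setIntegral_le_of_norm_le_const volume_shell_lt (μ := volume)
    (f := fun x => (LgS (P + y)) x * ψ x - (LgS P) x * ψ x
      - (LgP (P x) ((DX P) x) * y x + LgQ (P x) ((DX P) x) * (DX y) x) * ψ x) h1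
  have i12 : IntegrableOn (fun x => (LgS (P + y)) x * ψ x - (LgS P) x * ψ x) shell := i1.sub i2
  rw [integral_sub i12 i3, integral_sub i1 i2, ibp hP y ψ hψ, sub_neg_eq_add] at h4
  simp only [ip]
  refine h4.trans (le_of_eq ?_)
  rw [Measure.real]
  ring

end Pool.Agent.MP85963d.H52
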