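import Mathlib
import Pool.Agent.Lib.MP_85963d_gt.Interfaces
import Pool.Agent.Lib.MP_85963d_gt.H52.SFBasic

/-!
# Testing with a sector suffices
-/

set_option autoImplicit false

open MeasureTheory Set Filter Topology Quaternion
open scoped Real ContDiff

namespace Pool.Agent.MP85963d.H52

open SF

theorem rotK_period (x : ℍ) (t : ℝ) (F : SF) : F (rot qK (2 * π + t) * x) = F (rot qK t * x) := by
  have h : rot qK (2 * π) = -1 := by
    have : (2 * π) / 2 = π := by ring
    simp [rot, this]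
  rw [rot_add isImUnit_K, h, neg_one_mul, neg_mul, F.even]

/-- alternating sum over the rotations by multiples of `π/m` -/
noncomputable def alt (m : ℕ) (F : ℍ → ℝ) (x : ℍ) : ℝ :=
  ∑ l ∈ Finset.range (2 * m), (-1 : ℝ) ^ l * F (rot qK (l * (π / m)) * x)

theorem alt_rot (m : ℕ) (hm : 1 ≤ m) (F : SF) (x : ℍ) :
    alt m F (rot qK (π / m) * x) = - alt m F x := by
  have hm' : (m : ℝ) ≠ 0 := by positivity
  set a : ℕ → ℝ := fun l => (-1 : ℝ) ^ l * F (rot qK (l * (π / m)) * x) with ha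
  have h1 : ∀ l : ℕ, (-1 : ℝ) ^ l * F (rot qK (l * (π / m)) * (rot qK (π / m) * x))
      = - a (l + 1) := by
    intro l
    simp only [ha]
    rw [← mul_assoc (rot qK _), ← rot_add isImUnit_K]
    push_cast
    rw [add_mul, one_mul, pow_succ]
    ring
  have h2 : a (2 * m) = a 0 := by
    simp only [ha]
    have e1 : ((2 * m : ℕ) : ℝ) * (π / m) = 2 * π + ((0 : ℕ) : ℝ) * (π / m) := by
      push_cast; field_simp; ring
    rw [e1, rotK_period, pow_mul]
    simp
  unfold alt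
  rw [Finset.sum_congr rfl fun l _ => h1 l, Finset.sum_neg_distrib]
  congr 1
  have h3 := Finset.sum_range_succ a (2 * m)
  have h4 := Finset.sum_range_succ' a (2 * m)
  rw [h3, h2] at h4
  linarith

theorem qJ_rot (t : ℝ) : qJ * rot qK t = rot qK (-t) * qJ := by
  simp only [rot, mul_add, add_mul, mul_smul_comm, smul_mul_assoc, mul_one, one_mul, qJ_mul_qK,
    qK_mul_qJ, neg_div, Real.cos_neg, Real.sin_neg]
  module

theorem qJ_qJ (x : ℍ) : qJ * (qJ * x) = -x := by
  rw [← mul_assoc, isImUnit_J.sq, neg_one_mul]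

theorem rot_neg_cancel (t : ℝ) (x : ℍ) : rot qK t * (rot qK (-t) * x) = x := by
  rw [← mul_assoc, ← rot_add isImUnit_K, add_neg_cancel, rot_zero, one_mul]

/-- `psi` as a linear map -/
noncomputable def psiL (hPsi : PsiFacts) (n : ℕ) : UN n →ₗ[ℝ] SF where
  toFun y := psi y.1
  map_add' y z := hPsi.add n _ _ y.2 z.2
  map_smul' c y := hPsi.smul n c _ y.2

theorem UN_lcomp (hMN : MNFacts) (n : ℕ) (ρ : ℍ) (hρ : ρ ≠ 0) (F : SF) (hF : F ∈ UN n) :
    ∃ G ∈ UN n, ∀ x : ℍ, G x = F (ρ * x) := by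
  obtain ⟨G, hG, h⟩ := hMN.lcomp n ρ F hρ hF.1
  refine ⟨G, ⟨hG, ⟨fun x t => ?_, fun x => ?_⟩⟩, h⟩
  · rw [h, h, ← mul_assoc, hF.2.rotI]
  · rw [h, h, ← mul_assoc, hF.2.mulK]

theorem sector_test (hMN : MNFacts) (hPsi : PsiFacts) (m n : ℕ) (hm : 1 ≤ m) (D : SF)
    (h1 : ∀ x : ℍ, D (rot qK (π / m) * x) = - D x) (h2 : ∀ x : ℍ, D (qJ * x) = D x)
    (h : ∀ η ∈ SecN m n, ip D (psi η) = 0) : ∀ ψ ∈ EN n, ip D ψ = 0 := by
  intro ψ hψ
  obtain ⟨η, hη, rfl⟩ := hPsi.surj n ψ hψ
  have hm' : (m : ℝ) ≠ 0 := by positivity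
  -- rotated functions
  have hρ : ∀ l : ℕ, rot qK (l * (π / m)) ≠ 0 := fun l => rot_ne_zero isImUnit_K _
  have hJ : qJ ≠ 0 := by
    intro h0
    have := isImUnit_J.norm_eq
    simp [h0] at this
  have e1 : ∀ l : ℕ, ∃ G : UN n, ∀ x : ℍ, (G : SF) x = η (rot qK (l * (π / m)) * x) := by
    intro l
    obtain ⟨G, hG, hG'⟩ := UN_lcomp hMN n _ (hρ l) η hη
    exact ⟨⟨G, hG⟩, hG'⟩
  have e2 : ∀ l : ℕ, ∃ G : UN n, ∀ x : ℍ, (G : SF) x = η ((rot qK (l * (π / m)) * qJ) * x) := by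
    intro l
    obtain ⟨G, hG, hG'⟩ := UN_lcomp hMN n _ (mul_ne_zero (hρ l) hJ) η hη
    exact ⟨⟨G, hG⟩, hG'⟩
  choose G hG using e1
  choose H hH using e2
  set η' : UN n := ∑ l ∈ Finset.range (2 * m), (-1 : ℝ) ^ l • (G l + H l) with hη'
  have hval : ∀ x : ℍ, (η' : SF) x = alt m η x + alt m η (qJ * x) := by
    intro x
    rw [hη', Submodule.coe_sum, sum_apply, alt, alt, ← Finset.sum_add_distrib]
    refine Finset.sum_congr rfl fun l _ => ?_
    rw [Submodule.coe_smul, smul_apply, Submodule.coe_add, add_apply, hG, hH, mul_add, mul_assoc]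
  have hsec : (η' : SF) ∈ SecN m n := by
    refine ⟨η'.2, ⟨fun x => ?_, fun x => ?_⟩⟩
    · rw [hval, hval, alt_rot m hm, ← mul_assoc, qJ_rot, mul_assoc]
      have h3 := alt_rot m hm η (rot qK (-(π / m)) * (qJ * x))
      rw [rot_neg_cancel] at h3
      rw [h3]; ring
    · rw [hval, hval, qJ_qJ]
      have h3 : alt m η (-x) = alt m η x := by
        unfold alt
        refine Finset.sum_congr rfl fun l _ => ?_
        rw [mul_neg, η.even]
      rw [h3]; ring
  have h3 := h _ hsec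
  have h4 : psi (η' : SF) = ∑ l ∈ Finset.range (2 * m),
      (-1 : ℝ) ^ l • (psi (G l : SF) + psi (H l : SF)) := by
    have : psi (η' : SF) = psiL hPsi n η' := rfl
    rw [this, hη', map_sum]
    refine Finset.sum_congr rfl fun l _ => ?_
    rw [map_smul, map_add]
    rfl
  have hD : ∀ (l : ℕ) (x : ℍ), D (rot qK (l * (π / m)) * x) = (-1 : ℝ) ^ l * D x := by
    intro l
    induction l with
    | zero => intro x; simp [rot_zero]
    | succ l ih =>
      intro x
      have e : ((l + 1 : ℕ) : ℝ) * (π / m) = l * (π / m) + π / m := by push_cast; ring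
      rw [e, rot_add isImUnit_K, mul_assoc, ih, h1, pow_succ]
      ring
  have hsq : ∀ l : ℕ, (-1 : ℝ) ^ l * (-1 : ℝ) ^ l = 1 := fun l => by
    rw [← mul_pow]; simp
  have h5 : ∀ l : ℕ, ip D (psi (G l : SF)) = (-1 : ℝ) ^ l * ip D (psi η) := by
    intro l
    have k1 : ∀ x : ℍ, (psi (G l : SF)) x = (psi η) (rot qK (l * (π / m)) * x) :=
      hPsi.lcomp n _ η _ (hρ l) hη (G l).2 (hG l)
    have k2 := integral_shell_lmul (norm_rot isImUnit_K (l * (π / m)))
      (fun x => D x * (psi η) x)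
    rw [ip, ip, ← k2, ← integral_const_mul]
    congr 1
    funext x
    rw [k1, hD]
    linear_combination (-(D x * (psi η) (rot qK (l * (π / m)) * x))) * hsq l
  have h6 : ∀ l : ℕ, ip D (psi (H l : SF)) = (-1 : ℝ) ^ l * ip D (psi η) := by
    intro l
    have k1 : ∀ x : ℍ, (psi (H l : SF)) x = (psi η) (rot qK (l * (π / m)) * qJ * x) :=
      hPsi.lcomp n _ η _ (mul_ne_zero (hρ l) hJ) hη (H l).2 (hH l)
    have hn : ‖rot qK (l * (π / m)) * qJ‖ = 1 := by
      rw [norm_mul, norm_rot isImUnit_K, isImUnit_J.norm_eq, mul_one]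
    have k2 := integral_shell_lmul hn (fun x => D x * (psi η) x)
    rw [ip, ip, ← k2, ← integral_const_mul]
    congr 1
    funext x
    rw [k1, mul_assoc (rot qK _) qJ x, hD, h2]
    linear_combination (-(D x * (psi η) (rot qK (l * (π / m)) * (qJ * x)))) * hsq l
  have h7 : ip D (psi (η' : SF)) = (2 * m : ℕ) * (2 * ip D (psi η)) := by
    rw [h4]
    have : ∀ s : Finset ℕ, ip D (∑ l ∈ s, (-1 : ℝ) ^ l • (psi (G l : SF) + psi (H l : SF)) : SF)
        = ∑ l ∈ s, (2 * ip D (psi η)) := by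
      intro s
      classical
      induction s using Finset.induction_on with
      | empty => simp [ip]
      | insert a s ha ih =>
        rw [Finset.sum_insert ha, Finset.sum_insert ha, ip_add_right, ih, ip_smul_right,
          ip_add_right, h5, h6]
        linear_combination (2 * ip D (psi η)) * hsq a
    rw [this, Finset.sum_const, Finset.card_range, nsmul_eq_mul]
  rw [h7] at h3
  have h8 : ((2 * m : ℕ) : ℝ) ≠ 0 := by positivity
  have h9 := (mul_eq_zero.1 h3).resolve_left h8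
  linarith

end Pool.Agent.MP85963d.H52
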