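import Mathlib
import Pool.Agent.Lib.MP_85963d_gt.H52.Expand
import Pool.Agent.Lib.MP_85963d_gt.H52.SectorTest

/-!
# The finite-dimensional maps of Theorem N
-/

set_option autoImplicit false

open MeasureTheory Set Filter Topology Quaternion
open scoped Real ContDiff

namespace Pool.Agent.MP85963d.H52

open SF

/-- the hypotheses on the ball of radius `r` -/
structure Good (p : SF) (W : Submodule ℝ SF) (r c : ℝ) : Prop where
  r_pos : 0 < r
  c_pos : 0 < c
  adm : ∀ s ∈ Icc (0:ℝ) 1, ∀ y ∈ W, ener y ≤ r → Adm (seg 1 p s + y)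
  low : ∀ s ∈ Icc (0:ℝ) 1, ∀ y ∈ W, ener y ≤ r → ∀ x : ℍ, x ≠ 0 → c ≤ (seg 1 p s + y) x

theorem DX_one : DX (1 : SF) = 0 := Derivation.map_one_eq_zero _

theorem seg_bounds (p : SF) : ∃ B : ℝ, 0 ≤ B ∧ ∀ s ∈ Icc (0:ℝ) 1, ∀ x : ℍ,
    |(seg 1 p s) x| ≤ B ∧ |(DX (seg 1 p s)) x| ≤ B := by
  obtain ⟨B₀, h0, hB₀⟩ := SF_bdd (1 : SF)
  obtain ⟨B₁, h1, hB₁⟩ := SF_bdd p
  obtain ⟨B₂, h2, hB₂⟩ := SF_bdd (DX p)
  refine ⟨B₀ + B₁ + B₂, by positivity, fun s hs x => ⟨?_, ?_⟩⟩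
  · rw [seg_apply]
    have a1 := abs_add_le ((1 - s) * (1 : SF) x) (s * p x)
    rw [abs_mul, abs_mul, abs_of_nonneg (by linarith [hs.2] : 0 ≤ 1 - s), abs_of_nonneg hs.1] at a1
    have a2 := hB₀ x
    have a3 := hB₁ x
    have a4 : (1 - s) * |(1 : SF) x| ≤ B₀ := by
      nlinarith [abs_nonneg ((1 : SF) x), hs.1, hs.2]
    have a5 : s * |p x| ≤ B₁ := by nlinarith [abs_nonneg (p x), hs.1, hs.2]
    linarith
  · rw [DX_seg, DX_one, zero_apply, mul_zero, zero_add, abs_mul, abs_of_nonneg hs.1]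
    have a3 := hB₂ x
    nlinarith [abs_nonneg ((DX p) x), hs.1, hs.2]

theorem Good.bounds {p : SF} {W : Submodule ℝ SF} {r c : ℝ} (hg : Good p W r c)
    [FiniteDimensional ℝ (Ew W)] : ∃ B : ℝ, 0 ≤ B ∧ ∀ s ∈ Icc (0:ℝ) 1, ∀ y : Ew W, ‖y‖ ≤ r →
    ∀ x : ℍ, x ≠ 0 → c ≤ (seg 1 p s + emb W y) x ∧ (seg 1 p s + emb W y) x ≤ B ∧
      |(DX (seg 1 p s + emb W y)) x| ≤ B := by
  obtain ⟨C, hC0, hC⟩ := exists_bound_Ew W
  obtain ⟨B, hB0, hB⟩ := seg_bounds p
  have hr := hg.r_pos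
  refine ⟨B + C * r, by positivity, fun s hs y hy x hx => ⟨hg.low s hs _ (emb_mem y) hy x hx, ?_, ?_⟩⟩
  · rw [add_apply]
    have h1 := le_of_abs_le (hB s hs x).1
    have h2 := le_of_abs_le (hC y x).1
    have h3 : C * ‖y‖ ≤ C * r := mul_le_mul_of_nonneg_left hy hC0
    linarith
  · rw [map_add, add_apply]
    have h1 := (hB s hs x).2
    have h2 := (hC y x).2
    have h3 : C * ‖y‖ ≤ C * r := mul_le_mul_of_nonneg_left hy hC0
    exact (abs_add_le _ _).trans (by linarith)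

/-- continuity of the functionals -/
theorem contJ (hWS : WSFacts) {p : SF} {W : Submodule ℝ SF} {r c : ℝ}
    (hg : Good p W r c) [FiniteDimensional ℝ (Ew W)] (ψ : SF) :
    ContinuousOn (fun q : ℝ × Ew W => ip (LgS (seg 1 p q.1 + emb W q.2)) ψ)
      (Icc (0:ℝ) 1 ×ˢ Metric.closedBall 0 r) := by
  obtain ⟨B, hB0, hB⟩ := hg.bounds
  obtain ⟨M, hM0, hM⟩ := Lg_bound c B hg.c_pos
  obtain ⟨Mψ, hψ0, hψ⟩ := SF_bdd ψ
  set S : Set (ℝ × Ew W) := Icc (0:ℝ) 1 ×ˢ Metric.closedBall 0 r with hS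
  have hSy : ∀ q ∈ S, ‖q.2‖ ≤ r := fun q hq => by simpa using hq.2
  have hval : ∀ q ∈ S, ∀ x ∈ shell, (LgS (seg 1 p q.1 + emb W q.2)) x
      = Lg ((seg 1 p q.1 + emb W q.2) x) ((DX (seg 1 p q.1 + emb W q.2)) x) := by
    intro q hq x hx
    exact hWS.LgS_apply _ (hg.adm _ hq.1 _ (emb_mem _) (hSy q hq)) x (ne_zero_of_mem_shell hx)
  have hfin : IsFiniteMeasure (volume.restrict shell) :=
    ⟨by simpa using isCompact_shell.measure_lt_top⟩
  unfold ip
  refine continuousOn_of_dominated (bound := fun _ => M * Mψ) ?_ ?_ (integrable_const _) ?_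
  · intro q hq
    exact (((LgS (seg 1 p q.1 + emb W q.2)).continuousOn.mul
      ψ.continuousOn).mono shell_subset).aestronglyMeasurable measurableSet_shell
  · intro q hq
    rw [ae_restrict_iff' measurableSet_shell]
    refine Eventually.of_forall fun x hx => ?_
    rw [Real.norm_eq_abs, abs_mul, hval q hq x hx]
    obtain ⟨b1, b2, b3⟩ := hB q.1 hq.1 q.2 (hSy q hq) x (ne_zero_of_mem_shell hx)
    exact mul_le_mul (hM _ _ b1 b2 b3) (hψ x) (abs_nonneg _) hM0
  · rw [ae_restrict_iff' measurableSet_shell]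
    refine Eventually.of_forall fun x hx => ?_
    refine ContinuousOn.mul ?_ continuousOn_const
    have hc1 : Continuous (evL W x) := LinearMap.continuous_of_finiteDimensional _
    have hc2 : Continuous (evD W x) := LinearMap.continuous_of_finiteDimensional _
    have h1 : ContinuousOn (fun q : ℝ × Ew W => Lg ((1 - q.1) * (1 : SF) x + q.1 * p x + evL W x q.2)
        ((1 - q.1) * (DX (1 : SF)) x + q.1 * (DX p) x + evD W x q.2)) S := by
      have h2 : ContinuousOn (fun q : ℝ × Ew W =>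
          ((1 - q.1) * (1 : SF) x + q.1 * p x + evL W x q.2,
            (1 - q.1) * (DX (1 : SF)) x + q.1 * (DX p) x + evD W x q.2)) S := by
        apply Continuous.continuousOn
        fun_prop
      refine contDiffOn_Lg.continuousOn.comp h2 fun q hq => ?_
      have h3 := (hB q.1 hq.1 q.2 (hSy q hq) x (ne_zero_of_mem_shell hx)).1
      rw [add_apply, seg_apply] at h3
      exact hg.c_pos.trans_le h3
    refine h1.congr fun q hq => ?_
    show (LgS (seg 1 p q.1 + emb W q.2)) x = _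
    rw [hval q hq x hx, add_apply, seg_apply, map_add, add_apply, DX_seg]
    rfl

theorem mapsTo_neg_ball (W : Submodule ℝ SF) (r : ℝ) : MapsTo (fun q : ℝ × Ew W => (q.1, -q.2)) (Icc (0:ℝ) 1 ×ˢ Metric.closedBall (0 : Ew W) r)
      (Icc (0:ℝ) 1 ×ˢ Metric.closedBall (0 : Ew W) r) := by
    rintro ⟨s, y⟩ ⟨h1, h2⟩
    refine ⟨h1, ?_⟩
    rw [Metric.mem_closedBall, dist_zero_right] at h2 ⊢
    rwa [norm_neg]

theorem contJ_neg (hWS : WSFacts) {p : SF} {W : Submodule ℝ SF} {r c : ℝ}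
    (hg : Good p W r c) [FiniteDimensional ℝ (Ew W)] (ψ : SF) :
    ContinuousOn (fun q : ℝ × Ew W => ip (LgS (seg 1 p q.1 + emb W (-q.2))) ψ)
      (Icc (0:ℝ) 1 ×ˢ Metric.closedBall 0 r) := by
  have k1 := contJ hWS hg ψ
  have k3 : ContinuousOn (fun q : ℝ × Ew W => (q.1, -q.2))
      (Icc (0:ℝ) 1 ×ˢ Metric.closedBall (0 : Ew W) r) :=
    continuous_fst.continuousOn.prodMk continuous_snd.neg.continuousOn
  have k5 := k1.comp k3 (mapsTo_neg_ball W r)
  simpa only [Function.comp_def] using k5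
/-- the bilinear form as a linear functional -/
noncomputable def BL (W : Submodule ℝ SF) (w ψ : SF) : Ew W →ₗ[ℝ] ℝ where
  toFun y := ip (w * emb W y : SF) ψ
  map_add' y z := by rw [map_add, mul_add, ip_add_left]
  map_smul' c y := by rw [map_smul, mul_smul_comm, ip_smul_left]; rfl

theorem BL_eq (hWS : WSFacts) {W : Submodule ℝ SF} {P : SF} (hP : Adm P) (ψ : SF) (y : Ew W) :
    BL W (wS P) ψ y = ∫ x in shell, wf P x * (emb W y) x * ψ x := by
  show ip (wS P * emb W y : SF) ψ = _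
  rw [ip]
  refine setIntegral_congr_fun measurableSet_shell fun x hx => ?_
  show (wS P * emb W y : SF) x * ψ x = _
  rw [mul_apply, hWS.wS_apply P hP x (ne_zero_of_mem_shell hx)]

/-- the derivative of the functionals at the origin -/
theorem derivJ (hWS : WSFacts) {p : SF} {W : Submodule ℝ SF} {r c : ℝ}
    (hg : Good p W r c) [FiniteDimensional ℝ (Ew W)] (ψ : SF) (hψ : IsE ψ) {s : ℝ}
    (hs : s ∈ Icc (0:ℝ) 1) :
    HasFDerivAt (fun y : Ew W => ip (LgS (seg 1 p s + emb W y)) ψ)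
      (-(LinearMap.toContinuousLinearMap (BL W (wS (seg 1 p s)) ψ))) 0 := by
  obtain ⟨B, hB0, hB⟩ := hg.bounds
  obtain ⟨K, hK0, hK⟩ := expand hWS c B hg.c_pos
  obtain ⟨M, hM0, hM⟩ := SF_bdd ψ
  obtain ⟨C, hC0, hC⟩ := exists_bound_Ew W
  have hr := hg.r_pos
  have hP : Adm (seg 1 p s) := by
    have := hg.adm s hs 0 W.zero_mem (by rw [ener_zero]; exact hr.le)
    rwa [add_zero] at this
  rw [hasFDerivAt_iff_isLittleO_nhds_zero]
  have hO : (fun h : Ew W => ip (LgS (seg 1 p s + emb W (0 + h))) ψ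
      - ip (LgS (seg 1 p s + emb W (0 : Ew W))) ψ
      - (-(LinearMap.toContinuousLinearMap (BL W (wS (seg 1 p s)) ψ))) h)
      =O[𝓝 0] fun h => ‖h‖ ^ 2 := by
    refine Asymptotics.IsBigO.of_bound (K * C ^ 2 * M) ?_
    filter_upwards [Metric.closedBall_mem_nhds (0 : Ew W) hr] with h hh
    have hh' : ‖h‖ ≤ r := by simpa using hh
    rw [zero_add, map_zero, add_zero]
    have h1 := hK (seg 1 p s) (emb W h) ψ hP (hg.adm s hs _ (emb_mem h) hh') (DX_of_IsE hψ)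
      (fun x hx => by
        have b := hB s hs 0 (by simpa using hr.le) x hx
        rw [map_zero, add_zero] at b
        have b' := hB s hs h hh' x hx
        exact ⟨b.1, b.2.1, b.2.2, b'.1, b'.2.1, b'.2.2⟩)
      (C * ‖h‖) M (fun x => (hC h x).1) (fun x => (hC h x).2) hM
    have e1 : (-(LinearMap.toContinuousLinearMap (BL W (wS (seg 1 p s)) ψ))) h
        = - ∫ x in shell, wf (seg 1 p s) x * (emb W h) x * ψ x := by
      rw [← BL_eq hWS hP ψ h]; rfl
    rw [e1, sub_neg_eq_add, Real.norm_eq_abs]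
    refine h1.trans (le_of_eq ?_)
    rw [Real.norm_eq_abs, abs_of_nonneg (by positivity : (0:ℝ) ≤ ‖h‖ ^ 2)]
    ring
  exact hO.trans_isLittleO (Asymptotics.isLittleO_norm_pow_id one_lt_two)

end Pool.Agent.MP85963d.H52
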