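import Mathlib
import Pool.Agent.Lib.MP_85963d_gt.H52.Expand

/-!
# Limits of functions on frames
-/

set_option autoImplicit false

open MeasureTheory Set Filter Topology Quaternion
open scoped Real ContDiff

namespace Pool.Agent.MP85963d.H52

open SF

theorem unif_sub {F : ℕ → ℍ → ℝ} {f : ℍ → ℝ} {s : Set ℍ} {φ : ℕ → ℕ} (hφ : Tendsto φ atTop atTop)
    (h : TendstoUniformlyOn F f atTop s) : TendstoUniformlyOn (fun k => F (φ k)) f atTop s :=
  fun u hu => hφ.eventually (h u hu)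

theorem unif_iff {F : ℕ → ℍ → ℝ} {f : ℍ → ℝ} :
    TendstoUniformlyOn F f atTop {0}ᶜ ↔
      ∀ ε : ℝ, 0 < ε → ∀ᶠ k in atTop, ∀ x : ℍ, x ≠ 0 → |F k x - f x| < ε := by
  rw [Metric.tendstoUniformlyOn_iff]
  constructor
  · intro h ε hε
    filter_upwards [h ε hε] with k hk x hx
    have := hk x hx
    rwa [Real.dist_eq, abs_sub_comm] at this
  · intro h ε hε
    filter_upwards [h ε hε] with k hk x hx
    rw [Real.dist_eq, abs_sub_comm]
    exact hk x hx

theorem unif_pointwise {F : ℕ → ℍ → ℝ} {f : ℍ → ℝ}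
    (h : TendstoUniformlyOn F f atTop {0}ᶜ) {x : ℍ} (hx : x ≠ 0) :
    Tendsto (fun k => F k x) atTop (𝓝 (f x)) := h.tendsto_at hx

theorem unif_bound {F : ℕ → ℍ → ℝ} {f : ℍ → ℝ} (hf : Cts f)
    (h : TendstoUniformlyOn F f atTop {0}ᶜ) :
    ∃ A : ℝ, 0 ≤ A ∧ ∀ᶠ k in atTop, ∀ x : ℍ, x ≠ 0 → |F k x| ≤ A := by
  obtain ⟨M, h0, hM⟩ := Cts.bdd hf
  refine ⟨M + 1, by positivity, ?_⟩
  filter_upwards [unif_iff.1 h 1 one_pos] with k hk x hx
  have h1 := hk x hx
  have h2 := hM x hx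
  have h3 : |F k x| ≤ |F k x - f x| + |f x| := by
    have := abs_add_le (F k x - f x) (f x)
    simpa using this
  linarith

/-- square root of the volume of the shell -/
noncomputable def sv : ℝ := Real.sqrt (volume shell).toReal

theorem sv_nonneg : 0 ≤ sv := Real.sqrt_nonneg _

theorem nrm_le_bound {g : ℍ → ℝ} {M : ℝ} (hM : 0 ≤ M) (h : ∀ x ∈ shell, |g x| ≤ M)
    (hg : ContinuousOn g {0}ᶜ) : nrm g ≤ M * sv := by
  have h1 : ∫ x in shell, g x ^ 2 ≤ ∫ x in shell, M ^ 2 := by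
    refine setIntegral_mono_on (integrableOn_shell (hg.pow 2)) ?_ measurableSet_shell fun x hx => ?_
    · exact integrableOn_shell continuousOn_const
    · exact sq_le_sq' (neg_le_of_abs_le (h x hx)) (le_of_abs_le (h x hx))
  rw [setIntegral_const, smul_eq_mul] at h1
  have h2 : nrm g ^ 2 ≤ (M * sv) ^ 2 := by
    rw [nrm_sq, mul_pow, sv, Real.sq_sqrt ENNReal.toReal_nonneg]
    refine h1.trans (le_of_eq ?_)
    rw [Measure.real]; ring
  exact abs_le_of_sq_le_sq' h2 (mul_nonneg hM sv_nonneg) |>.2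

theorem nrm_sub_le {f g : ℍ → ℝ} (hf : ContinuousOn f {0}ᶜ) (hg : ContinuousOn g {0}ᶜ) :
    |nrm f - nrm g| ≤ nrm (fun x => f x - g x) := by
  have h1 : nrm f ≤ nrm (fun x => f x - g x) + nrm g := by
    have h := nrm_add_le (f := fun x => f x - g x) (g := g) (hf.sub hg) hg
    have e : (fun x => f x - g x + g x) = f := by funext x; ring
    rwa [e] at h
  have h2 : nrm g ≤ nrm (fun x => f x - g x) + nrm f := by
    have h := nrm_add_le (f := fun x => -1 * (f x - g x)) (g := f)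
      (continuousOn_const.mul (hf.sub hg)) hf
    have e : (fun x => -1 * (f x - g x) + f x) = g := by funext x; ring
    rw [e, nrm_const_mul] at h
    simpa using h
  rw [abs_le]
  constructor <;> linarith

theorem tendsto_nrm_sub {F : ℕ → ℍ → ℝ} {f : ℍ → ℝ} (hF : ∀ k, ContinuousOn (F k) {0}ᶜ)
    (hf : ContinuousOn f {0}ᶜ) (h : TendstoUniformlyOn F f atTop {0}ᶜ) :
    Tendsto (fun k => nrm (fun x => F k x - f x)) atTop (𝓝 0) := by
  rw [Metric.tendsto_nhds]
  intro ε hε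
  have hsv : 0 < sv + 1 := by have := sv_nonneg; linarith
  filter_upwards [unif_iff.1 h (ε / (sv + 1)) (by positivity)] with k hk
  have h1 : nrm (fun x => F k x - f x) ≤ ε / (sv + 1) * sv := by
    refine nrm_le_bound (by positivity) (fun x hx => (hk x (ne_zero_of_mem_shell hx)).le) ?_
    exact (hF k).sub hf
  rw [Real.dist_eq, sub_zero, abs_of_nonneg (nrm_nonneg _)]
  refine h1.trans_lt ?_
  rw [div_mul_eq_mul_div, div_lt_iff₀ hsv]
  nlinarith

theorem tendsto_nrm {F : ℕ → ℍ → ℝ} {f : ℍ → ℝ} (hF : ∀ k, ContinuousOn (F k) {0}ᶜ)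
    (hf : ContinuousOn f {0}ᶜ) (h : TendstoUniformlyOn F f atTop {0}ᶜ) :
    Tendsto (fun k => nrm (F k)) atTop (𝓝 (nrm f)) := by
  rw [tendsto_iff_dist_tendsto_zero]
  refine squeeze_zero (fun _ => dist_nonneg) (fun k => ?_) (tendsto_nrm_sub hF hf h)
  rw [Real.dist_eq]
  exact nrm_sub_le (hF k) hf

theorem ip_sub_left' {f g h : ℍ → ℝ} (hf : ContinuousOn f {0}ᶜ) (hg : ContinuousOn g {0}ᶜ)
    (hh : ContinuousOn h {0}ᶜ) : ip (fun x => f x - g x) h = ip f h - ip g h := by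
  simp only [ip, sub_mul]
  exact integral_sub (integrableOn_shell (hf.mul hh)) (integrableOn_shell (hg.mul hh))

theorem tendsto_ip {F : ℕ → ℍ → ℝ} {f g : ℍ → ℝ} (hF : ∀ k, ContinuousOn (F k) {0}ᶜ)
    (hf : ContinuousOn f {0}ᶜ) (hg : ContinuousOn g {0}ᶜ)
    (h : TendstoUniformlyOn F f atTop {0}ᶜ) :
    Tendsto (fun k => ip (F k) g) atTop (𝓝 (ip f g)) := by
  rw [tendsto_iff_dist_tendsto_zero]
  have h1 : Tendsto (fun k => nrm (fun x => F k x - f x) * nrm g) atTop (𝓝 0) := by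
    have := (tendsto_nrm_sub hF hf h).mul_const (nrm g)
    rwa [zero_mul] at this
  refine squeeze_zero (fun _ => dist_nonneg) (fun k => ?_) h1
  rw [Real.dist_eq, ← ip_sub_left' (hF k) hf hg]
  exact abs_ip_le ((hF k).sub hf) hg

/-- limits of the perimeter functionals -/
theorem tendsto_ip_LgS (hWS : WSFacts) (Q : ℕ → SF) {c : ℝ} (hc : 0 < c) {p q : ℍ → ℝ}
    (hadm : ∀ k, Adm (Q k)) (hlow : ∀ (k : ℕ) (x : ℍ), x ≠ 0 → c ≤ (Q k) x) (hp : Cts p) (hq : Cts q)
    (h1 : TendstoUniformlyOn (fun k x => (Q k) x) p atTop {0}ᶜ)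
    (h2 : TendstoUniformlyOn (fun k x => (DX (Q k)) x) q atTop {0}ᶜ) (ψ : SF) :
    Tendsto (fun k => ip (LgS (Q k)) ψ) atTop (𝓝 (ip (fun x => Lg (p x) (q x)) ψ)) := by
  obtain ⟨A₁, hA1, hA1'⟩ := unif_bound hp h1
  obtain ⟨A₂, hA2, hA2'⟩ := unif_bound hq h2
  obtain ⟨M, hM0, hM⟩ := Lg_bound c (max A₁ A₂) hc
  obtain ⟨Mψ, hψ0, hψ⟩ := SF_bdd ψ
  have hfin : IsFiniteMeasure (volume.restrict shell) :=
    ⟨by simpa using isCompact_shell.measure_lt_top⟩
  unfold ip
  refine tendsto_integral_filter_of_dominated_convergence (fun _ => M * Mψ) ?_ ?_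
    (integrable_const _) ?_
  · refine Eventually.of_forall fun k => ?_
    exact (((LgS (Q k)).continuousOn.mul
      ψ.continuousOn).mono shell_subset).aestronglyMeasurable measurableSet_shell
  · filter_upwards [hA1', hA2'] with k k1 k2
    rw [ae_restrict_iff' measurableSet_shell]
    refine Eventually.of_forall fun x hx => ?_
    have hx0 := ne_zero_of_mem_shell hx
    rw [Real.norm_eq_abs, abs_mul, hWS.LgS_apply _ (hadm k) x hx0]
    refine mul_le_mul (hM _ _ (hlow k x hx0) ?_ ?_) (hψ x) (abs_nonneg _) hM0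
    · exact (le_of_abs_le (k1 x hx0)).trans (le_max_left _ _)
    · exact (k2 x hx0).trans (le_max_right _ _)
  · rw [ae_restrict_iff' measurableSet_shell]
    refine Eventually.of_forall fun x hx => ?_
    have hx0 := ne_zero_of_mem_shell hx
    refine Tendsto.mul_const _ ?_
    have hpx : c ≤ p x := ge_of_tendsto (unif_pointwise h1 hx0)
      (Eventually.of_forall fun k => hlow k x hx0)
    have h3 := (continuousAt_Lg (q x) (hc.trans_le hpx)).tendsto.comp
      ((unif_pointwise h1 hx0).prodMk_nhds (unif_pointwise h2 hx0))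
    refine h3.congr fun k => ?_
    show Lg ((Q k) x) ((DX (Q k)) x) = _
    rw [hWS.LgS_apply _ (hadm k) x hx0]

/-- symmetries of the derivative of a u-function -/
theorem deriv_symm {p q : ℍ → ℝ} (hU : IsU p)
    (hd : ∀ x : ℍ, x ≠ 0 → ∀ t : ℝ, HasDerivAt (fun t => p (x * rot qK t)) (q (x * rot qK t)) t)
    {x : ℍ} (hx : x ≠ 0) : p (x * qI) = p x ∧ q (x * qI) = - q x ∧ q (x * qK) = q x := by
  have hpI : ∀ z : ℍ, p (z * qI) = p z := fun z => by
    have := hU.rotI z π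
    rwa [rot_pi] at this
  have hI0 : qI ≠ 0 := by
    intro h0
    have := isImUnit_I.norm_eq
    simp [h0] at this
  have hK0 : qK ≠ 0 := by
    intro h0
    have := isImUnit_K.norm_eq
    simp [h0] at this
  have hIrot : ∀ t : ℝ, qI * rot qK t = rot qK (-t) * qI := by
    intro t
    simp only [rot, mul_add, add_mul, mul_smul_comm, smul_mul_assoc, mul_one, one_mul, qI_mul_qK,
      qK_mul_qI, neg_div, Real.cos_neg, Real.sin_neg]
    module
  have h0 := hd x hx 0
  rw [rot_zero, mul_one] at h0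
  refine ⟨hpI x, ?_, ?_⟩
  · have h1 := hd (x * qI) (mul_ne_zero hx hI0) 0
    rw [rot_zero, mul_one] at h1
    have h2 : (fun t => p (x * qI * rot qK t)) = fun t => p (x * rot qK (-t)) := by
      funext t
      rw [mul_assoc, hIrot, ← mul_assoc, hpI]
    rw [h2] at h1
    have h0' : HasDerivAt (fun t => p (x * rot qK t)) (q x) (-0) := by rwa [neg_zero]
    have h3 := h0'.scomp (0:ℝ) (hasDerivAt_neg (0:ℝ))
    have h4 := h1.unique h3
    simpa using h4
  · have h1 := hd (x * qK) (mul_ne_zero hx hK0) 0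
    rw [rot_zero, mul_one] at h1
    have h2 : (fun t => p (x * qK * rot qK t)) = fun t => p (x * rot qK t) := by
      funext t
      rw [mul_assoc, rot_mul_comm, ← mul_assoc, hU.mulK]
    rw [h2] at h1
    exact h1.unique h0

end Pool.Agent.MP85963d.H52
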