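import Mathlib
import Pool.Agent.Lib.MP_85963d_gt.H52.FinMap

/-!
# The degree argument in a sector
-/

set_option autoImplicit false

open MeasureTheory Set Filter Topology Quaternion
open scoped Real ContDiff

namespace Pool.Agent.MP85963d.H52

open SF

theorem finiteDimensional_Ew (hMN : MNFacts) (n : ℕ) (W : Submodule ℝ SF) (hW : W ≤ MN n) :
    FiniteDimensional ℝ (Ew W) := by
  have := hMN.finite n
  have h : FiniteDimensional ℝ W := Submodule.finiteDimensional_of_le hW
  exact h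

theorem SecN_le_UN (m n : ℕ) : SecN m n ≤ UN n := fun _ h => h.1
theorem UN_le_MN (n : ℕ) : UN n ≤ MN n := fun _ h => h.1

theorem detW_congr {W : Submodule ℝ SF} {d : ℕ} (b : Module.Basis (Fin d) ℝ W) {w w' : ℍ → ℝ}
    (h : ∀ x : ℍ, x ≠ 0 → w x = w' x) : detW b w = detW b w' := by
  unfold detW Bil
  congr 2
  funext i j
  refine setIntegral_congr_fun measurableSet_shell fun x hx => ?_
  simp only [h x (ne_zero_of_mem_shell hx)]

/-- the antisymmetry of the difference of the perimeter densities -/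
theorem LgS_symm (hWS : WSFacts) {P Q : SF} {ρ : ℍ} (hρ : ρ ≠ 0) (hP : Adm P) (hQ : Adm Q)
    (h : ∀ x : ℍ, P (ρ * x) = Q x) (x : ℍ) : (LgS P) (ρ * x) = (LgS Q) x := by
  by_cases hx : x = 0
  · subst hx; rw [mul_zero, map_zero', map_zero']
  have h1 : (DX P) (ρ * x) = (DX Q) x := by
    have := DX_lcomp (y := P) (z := Q) hρ 1 (fun x => by rw [one_mul, h]) x
    rw [this, one_mul]
  rw [hWS.LgS_apply P hP _ (mul_ne_zero hρ hx), hWS.LgS_apply Q hQ x hx, h, h1]

theorem emb_neg' {W : Submodule ℝ SF} (y : Ew W) : emb W (-y) = - emb W y := map_neg _ _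

theorem qJ_ne_zero : qJ ≠ 0 := by
  intro h0
  have := isImUnit_J.norm_eq
  simp [h0] at this

theorem hasFDerivAt_odd {E F : Type*} [NormedAddCommGroup E] [NormedSpace ℝ E]
    [NormedAddCommGroup F] [NormedSpace ℝ F] {J : E → ℝ} {l : E →L[ℝ] ℝ}
    (h : HasFDerivAt J (-l) 0) (v : F) :
    HasFDerivAt (fun y => ((1 / 2 : ℝ) * (J (-y) - J y)) • v) (l.smulRight v) 0 := by
  have k3 : HasFDerivAt (fun y : E => -y) (-(ContinuousLinearMap.id ℝ E)) 0 :=
    (hasFDerivAt_id (0 : E)).neg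
  have h' : HasFDerivAt J (-l) (-(0 : E)) := by rwa [neg_zero]
  have k2 : HasFDerivAt (fun y : E => J (-y)) l 0 := by
    have k4 := HasFDerivAt.comp (0 : E) h' k3
    refine k4.congr_fderiv ?_
    ext y
    simp
  have k5 := ((k2.sub h).const_mul (1 / 2)).smul_const v
  refine k5.congr_fderiv ?_
  ext y
  simp only [ContinuousLinearMap.smulRight_apply, ContinuousLinearMap.smul_apply,
    ContinuousLinearMap.sub_apply, ContinuousLinearMap.neg_apply, smul_eq_mul]
  congr 1
  ring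

theorem det_sum_smulRight {E : Type*} [NormedAddCommGroup E] [NormedSpace ℝ E] {d : ℕ}
    (b : Module.Basis (Fin d) ℝ E) (l : Fin d → (E →L[ℝ] ℝ)) :
    LinearMap.det ((∑ i, (l i).smulRight (b i) : E →L[ℝ] E) : E →ₗ[ℝ] E)
      = Matrix.det (Matrix.of fun i j : Fin d => l i (b j)) := by
  classical
  rw [← LinearMap.det_toMatrix b]
  congr 1
  ext i j
  rw [LinearMap.toMatrix_apply, Matrix.of_apply]
  have h1 : ((∑ i, (l i).smulRight (b i) : E →L[ℝ] E) : E →ₗ[ℝ] E) (b j)
      = ∑ k, l k (b j) • b k := by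
    simp
  rw [h1, map_sum]
  simp [Finsupp.single_apply]

theorem partA (hDeg : DegStatement) (hMN : MNFacts) (hPsi : PsiFacts) (hWS : WSFacts)
    (hDet : DetFacts) (m n : ℕ) (p : SF) (hm : 1 ≤ m) (hrot : RotInv p) (r c : ℝ)
    (hg : Good p (SecN m n) r c) (hneg : NegDet (SecN m n) (wf p)) :
    ∃ s ∈ Icc (0:ℝ) 1, ∃ y ∈ SecN m n, y ≠ 0 ∧ ener y ≤ r ∧
      (∀ ψ ∈ EN n, ip (LgS (seg 1 p s + y) - LgS (seg 1 p s - y) : SF) ψ = 0) ∧
      (ener y = r ∨ s = 0 ∨ s = 1) := by
  classical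
  by_contra hcon
  push Not at hcon
  set W := SecN m n with hW
  have hfd : FiniteDimensional ℝ (Ew W) :=
    finiteDimensional_Ew hMN n W ((SecN_le_UN m n).trans (UN_le_MN n))
  obtain ⟨d, b, hdet⟩ := hneg
  let b' : Module.Basis (Fin d) ℝ (Ew W) := b
  have hbb : ∀ i, emb W (b' i) = (b i : SF) := fun i => rfl
  set ψ : Fin d → SF := fun i => psi (b i : SF) with hψ
  have hψE : ∀ i, ψ i ∈ EN n := fun i => hPsi.mem n _ ((SecN_le_UN m n) (b i).2)
  have hr := hg.r_pos
  let cf : Fin d → ℝ → Ew W → ℝ := fun i s y =>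
    (1 / 2) * (ip (LgS (seg 1 p s + emb W (-y))) (ψ i) - ip (LgS (seg 1 p s + emb W y)) (ψ i))
  let f : ℝ → Ew W → Ew W := fun s y => ∑ i, cf i s y • b' i
  let A : ℝ → (Ew W →L[ℝ] Ew W) := fun s =>
    ∑ i, (LinearMap.toContinuousLinearMap (BL W (wS (seg 1 p s)) (ψ i))).smulRight (b' i)
  have hadm : ∀ s ∈ Icc (0:ℝ) 1, Adm (seg 1 p s) := by
    intro s hs
    have := hg.adm s hs 0 W.zero_mem (by rw [ener_zero]; exact hr.le)
    rwa [add_zero] at this
  -- zeros
  have hzero : ∀ s ∈ Icc (0:ℝ) 1, ∀ y : Ew W, ‖y‖ ≤ r → f s y = 0 →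
      ∀ ψ' ∈ EN n, ip (LgS (seg 1 p s + emb W y) - LgS (seg 1 p s - emb W y) : SF) ψ' = 0 := by
    intro s hs y hy h0
    have hc0 : ∀ i, cf i s y = 0 :=
      Fintype.linearIndependent_iff.1 b'.linearIndependent (fun i => cf i s y) h0
    set D : SF := LgS (seg 1 p s + emb W y) - LgS (seg 1 p s - emb W y) with hD
    have hy1 : Adm (seg 1 p s + emb W y) := hg.adm s hs _ (emb_mem y) hy
    have hy2 : Adm (seg 1 p s - emb W y) := by
      have := hg.adm s hs _ (emb_mem (-y)) (by rw [emb_neg', ener_neg]; exact hy)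
      rwa [emb_neg', ← sub_eq_add_neg] at this
    have hsec : InSec m (emb W y) := (emb_mem y).2
    have hR : RotInv (seg 1 p s) := hWS.seg_rotInv 1 p hWS.rotInv_one hrot s
    refine sector_test hMN hPsi m n hm D ?_ ?_ ?_
    · intro x
      rw [hD, sub_apply, sub_apply,
        LgS_symm hWS (Q := seg 1 p s - emb W y) (rot_ne_zero isImUnit_K _) hy1 hy2
          (fun x => by rw [add_apply, sub_apply, hsec.rot, hR.rot]; ring),
        LgS_symm hWS (Q := seg 1 p s + emb W y) (rot_ne_zero isImUnit_K _) hy2 hy1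
          (fun x => by rw [add_apply, sub_apply, hsec.rot, hR.rot]; ring)]
      ring
    · intro x
      rw [hD, sub_apply, sub_apply,
        LgS_symm hWS (Q := seg 1 p s + emb W y) qJ_ne_zero hy1 hy1
          (fun x => by rw [add_apply, add_apply, hsec.mulJ, hR.mulJ]),
        LgS_symm hWS (Q := seg 1 p s - emb W y) qJ_ne_zero hy2 hy2
          (fun x => by rw [sub_apply, sub_apply, hsec.mulJ, hR.mulJ])]
    · -- linear functional on the sector
      let T : W →ₗ[ℝ] ℝ :=
        { toFun := fun η => ip D (psi η.1)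
          map_add' := fun η ζ => by
            show ip D (psi (η.1 + ζ.1)) = _
            rw [hPsi.add n _ _ (SecN_le_UN m n η.2) (SecN_le_UN m n ζ.2), ip_add_right]
          map_smul' := fun c η => by
            show ip D (psi (c • η.1)) = _
            rw [hPsi.smul n _ _ (SecN_le_UN m n η.2), ip_smul_right]; rfl }
      have hT : T = 0 := by
        refine b.ext fun i => ?_
        show ip D (psi (b i : SF)) = 0
        have h1 := hc0 i
        simp only [cf, emb_neg', ← sub_eq_add_neg] at h1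
        have h2 : ip D (ψ i) = ip (LgS (seg 1 p s + emb W y)) (ψ i)
            - ip (LgS (seg 1 p s - emb W y)) (ψ i) := by
          rw [hD, sub_eq_add_neg (LgS _), ip_add_left, ip_neg_left]
          exact (sub_eq_add_neg _ _).symm
        show ip D (ψ i) = 0
        rw [h2]; linarith
      intro η hη
      have := LinearMap.congr_fun hT ⟨η, hη⟩
      exact this
  -- continuity
  have hcont : ContinuousOn (Function.uncurry f) (Icc (0:ℝ) 1 ×ˢ Metric.closedBall 0 r) := by
    have h1 : ∀ i, ContinuousOn (fun q : ℝ × Ew W => cf i q.1 q.2)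
        (Icc (0:ℝ) 1 ×ˢ Metric.closedBall 0 r) := by
      intro i
      have k1 := contJ hWS hg (ψ i)
      have k2 := contJ_neg hWS hg (ψ i)
      exact continuousOn_const.mul (k2.sub k1)
    show ContinuousOn (fun q : ℝ × Ew W => ∑ i, cf i q.1 q.2 • b' i) _
    exact continuousOn_finset_sum _ fun i _ => (h1 i).smul continuousOn_const
  -- derivatives
  have hder : ∀ s ∈ Icc (0:ℝ) 1, HasFDerivAt (f s) (A s) 0 := by
    intro s hs
    refine HasFDerivAt.fun_sum fun i _ => ?_
    exact hasFDerivAt_odd (derivJ hWS hg (ψ i) (hψE i).2 hs) (b' i)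
  have hf0 : ∀ s : ℝ, f s 0 = 0 := by
    intro s
    simp [f, cf]
  -- determinants
  have hdetA : ∀ s ∈ Icc (0:ℝ) 1, LinearMap.det (A s : Ew W →ₗ[ℝ] Ew W)
      = detW b (wf (seg 1 p s)) := by
    intro s hs
    rw [det_sum_smulRight, detW]
    congr 2
    funext i j
    rw [LinearMap.coe_toContinuousLinearMap', BL_eq hWS (hadm s hs)]
    rfl
  have hs0 : (0:ℝ) ∈ Icc (0:ℝ) 1 := ⟨le_rfl, zero_le_one⟩
  have hs1 : (1:ℝ) ∈ Icc (0:ℝ) 1 := ⟨zero_le_one, le_rfl⟩
  have hd1 : LinearMap.det (A 1 : Ew W →ₗ[ℝ] Ew W) < 0 := by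
    rw [hdetA 1 hs1, seg_one]; exact hdet
  have hd0 : 0 < LinearMap.det (A 0 : Ew W →ₗ[ℝ] Ew W) := by
    rw [hdetA 0 hs0, seg_zero]
    have h1 : PosDet W (wS 1 : SF) := by
      refine hDet.coer W n _ (cts_SF _) (SecN_le_UN m n) fun y hy hy0 => ?_
      have h2 : Bil (wS 1 : SF) y y = ip y y := by
        rw [← hPsi.pair n y (SecN_le_UN m n hy) y (cts_SF y) (SecN_le_UN m n hy).2, Bil, ip]
        refine setIntegral_congr_fun measurableSet_shell fun x hx => ?_
        simp only [hWS.wS_one, one_apply (ne_zero_of_mem_shell hx), one_mul]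
      rw [h2, ← nrm_sq']
      have h3 : nrm y ≠ 0 := fun h => hy0 (eq_zero_of_nrm h)
      positivity
    obtain ⟨d', b'', h2⟩ := h1
    have h3 := ((hDet.basis W n _ (cts_SF (wS 1)) (SecN_le_UN m n) d' d b'' b).1).1 h2
    rwa [detW_congr b (fun x hx => hWS.wS_apply 1 hWS.adm_one x hx)] at h3
  have key := hDeg (Ew W) r f (A 0) (A 1) hr hcont
    (fun s hs y hy h0 => by
      have h1 := hzero s hs y hy.le h0
      have hy0 : emb W y ≠ 0 := by
        intro h
        rw [norm_Ew, h, ener_zero] at hy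
        linarith
      exact (hcon s hs (emb W y) (emb_mem y) hy0 hy.le h1).1 hy)
    (hf0 0) (hf0 1) (hder 0 hs0) (hder 1 hs1)
    (fun y hy h0 => by
      by_contra hy0
      have hy0' : emb W y ≠ 0 := fun h => hy0 (emb_inj h)
      exact (hcon 0 hs0 (emb W y) (emb_mem y) hy0' hy (hzero 0 hs0 y hy h0)).2.1 rfl)
    (fun y hy h0 => by
      by_contra hy0
      have hy0' : emb W y ≠ 0 := fun h => hy0 (emb_inj h)
      exact (hcon 1 hs1 (emb W y) (emb_mem y) hy0' hy (hzero 1 hs1 y hy h0)).2.2 rfl)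
    hd0.ne' hd1.ne
  exact absurd key (not_lt.2 (mul_nonpos_of_nonneg_of_nonpos hd0.le hd1.le))

end Pool.Agent.MP85963d.H52
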