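import Mathlib
import Pool.Agent.Lib.MP_85963d_gt.H52.PartA
import Pool.Agent.Lib.MP_85963d_gt.H52.Limits

/-!
# The compactness argument
-/

set_option autoImplicit false

open MeasureTheory Set Filter Topology Quaternion
open scoped Real ContDiff

namespace Pool.Agent.MP85963d.H52

open SF

theorem seg_unif (p : SF) {S : ℕ → ℝ} {σ : ℝ} (h : Tendsto S atTop (𝓝 σ)) :
    TendstoUniformlyOn (fun k x => (seg 1 p (S k)) x) (seg 1 p σ) atTop {0}ᶜ ∧
      TendstoUniformlyOn (fun k x => (DX (seg 1 p (S k))) x) (DX (seg 1 p σ)) atTop {0}ᶜ := by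
  obtain ⟨B₀, h0, hB₀⟩ := SF_bdd (1 : SF)
  obtain ⟨B₁, h1, hB₁⟩ := SF_bdd p
  obtain ⟨B₂, h2, hB₂⟩ := SF_bdd (DX p)
  have key : ∀ ε : ℝ, 0 < ε → ∀ᶠ k in atTop, |S k - σ| * (B₀ + B₁ + B₂) < ε := by
    intro ε hε
    have h3 : Tendsto (fun k => |S k - σ| * (B₀ + B₁ + B₂)) atTop (𝓝 0) := by
      have h4 : Tendsto (fun k => |S k - σ|) atTop (𝓝 0) := by
        have := (tendsto_iff_dist_tendsto_zero).1 h
        simpa [Real.dist_eq] using this
      have := h4.mul_const (B₀ + B₁ + B₂)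
      rwa [zero_mul] at this
    exact h3.eventually (gt_mem_nhds hε)
  constructor
  · rw [unif_iff]
    intro ε hε
    filter_upwards [key ε hε] with k hk x hx
    refine lt_of_le_of_lt ?_ hk
    rw [seg_apply, seg_apply]
    have e : (1 - S k) * (1 : SF) x + S k * p x - ((1 - σ) * (1 : SF) x + σ * p x)
        = (S k - σ) * (p x - (1 : SF) x) := by ring
    rw [e, abs_mul]
    refine mul_le_mul_of_nonneg_left ?_ (abs_nonneg _)
    have := abs_sub (p x) ((1 : SF) x)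
    linarith [hB₀ x, hB₁ x]
  · rw [unif_iff]
    intro ε hε
    filter_upwards [key ε hε] with k hk x hx
    refine lt_of_le_of_lt ?_ hk
    rw [DX_seg, DX_seg, DX_one, zero_apply]
    have e : (1 - S k) * 0 + S k * (DX p) x - ((1 - σ) * 0 + σ * (DX p) x)
        = (S k - σ) * (DX p) x := by ring
    rw [e, abs_mul]
    refine mul_le_mul_of_nonneg_left ?_ (abs_nonneg _)
    linarith [hB₂ x]

theorem cts_add {f g : ℍ → ℝ} (hf : Cts f) (hg : Cts g) : Cts (fun x => f x + g x) :=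
  ⟨hf.cont.add hg.cont, fun r x hr hx => by rw [hf.hom r x hr hx, hg.hom r x hr hx]⟩

theorem cts_sub {f g : ℍ → ℝ} (hf : Cts f) (hg : Cts g) : Cts (fun x => f x - g x) :=
  ⟨hf.cont.sub hg.cont, fun r x hr hx => by rw [hf.hom r x hr hx, hg.hom r x hr hx]⟩

theorem cts_Lg {p q : ℍ → ℝ} (hp : Cts p) (hq : Cts q) (hpos : ∀ x : ℍ, x ≠ 0 → 0 < p x) :
    Cts (fun x => Lg (p x) (q x)) :=
  ⟨continuousOn_Lg hp.cont hq.cont hpos,
    fun r x hr hx => by simp only [hp.hom r x hr hx, hq.hom r x hr hx]⟩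

theorem klein_Lg {p q : ℍ → ℝ} (hU : IsU p)
    (hd : ∀ x : ℍ, x ≠ 0 → ∀ t : ℝ, HasDerivAt (fun t => p (x * rot qK t)) (q (x * rot qK t)) t) :
    IsKlein (fun x => Lg (p x) (q x)) := by
  constructor
  · intro x
    by_cases hx : x = 0
    · subst hx; simp
    · obtain ⟨h1, h2, h3⟩ := deriv_symm hU hd hx
      simp only [h1, h2, Lg_neg]
  · intro x
    by_cases hx : x = 0
    · subst hx; simp
    · obtain ⟨h1, h2, h3⟩ := deriv_symm hU hd hx
      simp only [hU.mulK, h3]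

theorem continuous_circle {f : ℍ → ℝ} (hf : Cts f) {x : ℍ} (hx : x ≠ 0) :
    Continuous fun t : ℝ => f (x * rot qK t) := by
  have h1 : Continuous fun t : ℝ => x * rot qK t := by
    have := continuous_rot qK
    fun_prop
  exact hf.cont.comp_continuous h1 fun t => rrot_ne_zero isImUnit_K hx t

theorem avgK_sub {f g : ℍ → ℝ} (hf : Cts f) (hg : Cts g) {x : ℍ} (hx : x ≠ 0) :
    avgK (fun z => f z - g z) x = avgK f x - avgK g x := by
  unfold avgK
  rw [intervalIntegral.integral_sub ((continuous_circle hf hx).intervalIntegrable _ _)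
    ((continuous_circle hg hx).intervalIntegrable _ _)]
  ring

/-- the data of the compactness argument -/
structure Seqs (p : SF) (c : ℝ) (S : ℕ → ℝ) (Y : ℕ → SF) (N : ℕ → ℕ) (σ : ℝ) : Prop where
  c_pos : 0 < c
  mem : ∀ k, S k ∈ Icc (0:ℝ) 1
  memσ : σ ∈ Icc (0:ℝ) 1
  isU : ∀ k, IsU (Y k)
  adm1 : ∀ k, Adm (seg 1 p (S k) + Y k)
  adm2 : ∀ k, Adm (seg 1 p (S k) - Y k)
  low1 : ∀ k, ∀ x : ℍ, x ≠ 0 → c ≤ (seg 1 p (S k) + Y k) x
  low2 : ∀ k, ∀ x : ℍ, x ≠ 0 → c ≤ (seg 1 p (S k) - Y k) x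
  eq : ∀ k, ∀ ψ ∈ EN (N k), ip (LgS (seg 1 p (S k) + Y k) - LgS (seg 1 p (S k) - Y k) : SF) ψ = 0
  limN : Tendsto N atTop atTop
  limS : Tendsto S atTop (𝓝 σ)

theorem EN_mono (hMN : MNFacts) {m n : ℕ} (h : m ≤ n) : EN m ≤ EN n :=
  fun _ hψ => ⟨hMN.mono m n h hψ.1, hψ.2⟩

/-- the case of a non-zero limit -/
theorem caseA (hMN : MNFacts) (hDens : DensFacts) (hWS : WSFacts) (hGauge : GaugeFacts)
    (hGeo : GeoStatement) {p : SF} (hp : Adm p) {c : ℝ} {S : ℕ → ℝ} {Y : ℕ → SF} {N : ℕ → ℕ} {σ : ℝ}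
    (D : Seqs p c S Y N σ) {z q : ℍ → ℝ} (hz : Cts z) (hq : Cts q) (hzU : IsU z)
    (h1 : TendstoUniformlyOn (fun k x => (Y k) x) z atTop {0}ᶜ)
    (h2 : TendstoUniformlyOn (fun k x => (DX (Y k)) x) q atTop {0}ᶜ)
    (hd : ∀ x : ℍ, x ≠ 0 → ∀ t : ℝ, HasDerivAt (fun t => z (x * rot qK t)) (q (x * rot qK t)) t)
    (hne : ∃ x : ℍ, x ≠ 0 ∧ z x ≠ 0) : NonUniqueness := by
  obtain ⟨s1, s2⟩ := seg_unif p D.limS
  have hAσ : Adm (seg 1 p σ) := hWS.seg_adm 1 p hWS.adm_one hp σ D.memσ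
  set P : SF := seg 1 p σ with hP
  set p₁ : ℍ → ℝ := fun x => P x + z x with hp₁
  set q₁ : ℍ → ℝ := fun x => (DX P) x + q x with hq₁
  set p₂ : ℍ → ℝ := fun x => P x - z x with hp₂
  set q₂ : ℍ → ℝ := fun x => (DX P) x - q x with hq₂
  have cp₁ : Cts p₁ := cts_add (cts_SF P) hz
  have cq₁ : Cts q₁ := cts_add (cts_SF (DX P)) hq
  have cp₂ : Cts p₂ := cts_sub (cts_SF P) hz
  have cq₂ : Cts q₂ := cts_sub (cts_SF (DX P)) hq
  have u1 : TendstoUniformlyOn (fun k x => (seg 1 p (S k) + Y k) x) p₁ atTop {0}ᶜ := by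
    have := s1.add h1
    refine this.congr (Eventually.of_forall fun k x _ => ?_)
    simp
  have u1' : TendstoUniformlyOn (fun k x => (DX (seg 1 p (S k) + Y k)) x) q₁ atTop {0}ᶜ := by
    have := s2.add h2
    refine this.congr (Eventually.of_forall fun k x _ => ?_)
    simp
  have u2 : TendstoUniformlyOn (fun k x => (seg 1 p (S k) - Y k) x) p₂ atTop {0}ᶜ := by
    have := s1.sub h1
    refine this.congr (Eventually.of_forall fun k x _ => ?_)
    simp
  have u2' : TendstoUniformlyOn (fun k x => (DX (seg 1 p (S k) - Y k)) x) q₂ atTop {0}ᶜ := by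
    have := s2.sub h2
    refine this.congr (Eventually.of_forall fun k x _ => ?_)
    simp
  have pos1 : ∀ x : ℍ, x ≠ 0 → 0 < p₁ x := fun x hx =>
    D.c_pos.trans_le (ge_of_tendsto (unif_pointwise u1 hx)
      (Eventually.of_forall fun k => D.low1 k x hx))
  have pos2 : ∀ x : ℍ, x ≠ 0 → 0 < p₂ x := fun x hx =>
    D.c_pos.trans_le (ge_of_tendsto (unif_pointwise u2 hx)
      (Eventually.of_forall fun k => D.low2 k x hx))
  have U1 : IsU p₁ := ⟨fun x t => by simp only [hp₁, hAσ.isU.rotI, hzU.rotI],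
    fun x => by simp only [hp₁, hAσ.isU.mulK, hzU.mulK]⟩
  have U2 : IsU p₂ := ⟨fun x t => by simp only [hp₂, hAσ.isU.rotI, hzU.rotI],
    fun x => by simp only [hp₂, hAσ.isU.mulK, hzU.mulK]⟩
  have d1 : ∀ x : ℍ, x ≠ 0 → ∀ t : ℝ,
      HasDerivAt (fun t => p₁ (x * rot qK t)) (q₁ (x * rot qK t)) t := fun x hx t =>
    (hasDerivAt_DX P hx t).add (hd x hx t)
  have d2 : ∀ x : ℍ, x ≠ 0 → ∀ t : ℝ,
      HasDerivAt (fun t => p₂ (x * rot qK t)) (q₂ (x * rot qK t)) t := fun x hx t =>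
    (hasDerivAt_DX P hx t).sub (hd x hx t)
  have G1 : Gaugeable p₁ q₁ := hGauge.lim _ p₁ q₁ D.adm1 cp₁ cq₁ U1 pos1 u1 u1' d1
  have G2 : Gaugeable p₂ q₂ := hGauge.lim _ p₂ q₂ D.adm2 cp₂ cq₂ U2 pos2 u2 u2' d2
  have cL1 := cts_Lg cp₁ cq₁ pos1
  have cL2 := cts_Lg cp₂ cq₂ pos2
  have hzero : ∀ x : ℍ, x ≠ 0 →
      avgK (fun z' => Lg (p₁ z') (q₁ z') - Lg (p₂ z') (q₂ z')) x = 0 := by
    refine hDens.zero _ (cts_sub cL1 cL2) ?_ ?_
    · have k1 := klein_Lg U1 d1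
      have k2 := klein_Lg U2 d2
      exact ⟨fun x => by rw [k1.mulI x, k2.mulI x], fun x => by rw [k1.mulK x, k2.mulK x]⟩
    · intro n ψ hψ
      rw [ip_sub_left' cL1.cont cL2.cont ψ.continuousOn]
      have t1 := tendsto_ip_LgS hWS _ D.c_pos D.adm1 D.low1 cp₁ cq₁ u1 u1' ψ
      have t2 := tendsto_ip_LgS hWS _ D.c_pos D.adm2 D.low2 cp₂ cq₂ u2 u2' ψ
      have t3 := t1.sub t2
      refine tendsto_nhds_unique t3 ?_
      refine tendsto_const_nhds.congr' ?_
      filter_upwards [D.limN.eventually_ge_atTop n] with k hk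
      have h3 := D.eq k ψ (EN_mono hMN hk hψ)
      rw [sub_eq_add_neg (LgS _), ip_add_left, ip_neg_left] at h3
      linarith
  refine hGeo p₁ q₁ p₂ q₂ G1 G2 (fun x hx => ?_) ?_
  · have h3 := hzero x hx
    rw [avgK_sub cL1 cL2 hx] at h3
    linarith
  · obtain ⟨x, hx, hzx⟩ := hne
    refine ⟨x, hx, fun h => hzx ?_⟩
    simp only [hp₁, hp₂] at h
    linarith

/-- the linearised equation for normalised sequences -/
theorem linearised (hMN : MNFacts) (hWS : WSFacts) {p : SF} (hp : Adm p) {c : ℝ} {S : ℕ → ℝ}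
    {Y : ℕ → SF} {N : ℕ → ℕ} {σ : ℝ} (D : Seqs p c S Y N σ) (hσ : ∀ᶠ k in atTop, S k = σ)
    (hlowσ : ∀ x : ℍ, x ≠ 0 → c ≤ (seg 1 p σ) x)
    (ρ : ℕ → ℝ) (hρ : ∀ k, 0 < ρ k) (hρ0 : Tendsto ρ atTop (𝓝 0)) {z q : ℍ → ℝ} (hz : Cts z)
    (hq : Cts q)
    (h1 : TendstoUniformlyOn (fun k x => ((ρ k)⁻¹ • Y k) x) z atTop {0}ᶜ)
    (h2 : TendstoUniformlyOn (fun k x => (DX ((ρ k)⁻¹ • Y k)) x) q atTop {0}ᶜ) :
    ∀ n, ∀ ψ ∈ EN n, ip (fun x => (wS (seg 1 p σ)) x * z x) ψ = 0 := by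
  intro n ψ hψ
  have hAσ : Adm (seg 1 p σ) := hWS.seg_adm 1 p hWS.adm_one hp σ D.memσ
  set P : SF := seg 1 p σ with hP
  obtain ⟨A₁, hA1, hA1'⟩ := unif_bound hz h1
  obtain ⟨A₂, hA2, hA2'⟩ := unif_bound hq h2
  set A := max A₁ A₂ with hA
  obtain ⟨B, hB0, hB⟩ := seg_bounds p
  obtain ⟨K, hK0, hK⟩ := expand hWS c (B + A) D.c_pos
  obtain ⟨M, hM0, hM⟩ := SF_bdd ψ
  have hA0 : 0 ≤ A := hA1.trans (le_max_left _ _)
  -- the quadratic bound
  have key : ∀ᶠ k in atTop, |ip (fun x => ((ρ k)⁻¹ • Y k) x) (fun x => (wS P) x * ψ x)|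
      ≤ K * A ^ 2 * M * ρ k := by
    filter_upwards [hA1', hA2', hσ, D.limN.eventually_ge_atTop n,
      hρ0.eventually (gt_mem_nhds one_pos)] with k k1 k2 k3 k4 k5
    have hρk := hρ k
    have hY : ∀ x : ℍ, |(Y k) x| ≤ ρ k * A := by
      intro x
      by_cases hx : x = 0
      · subst hx; rw [map_zero', abs_zero]; positivity
      · have := k1 x hx
        rw [smul_apply, abs_mul, abs_of_pos (inv_pos.2 hρk), inv_mul_le_iff₀ hρk] at this
        exact this.trans (mul_le_mul_of_nonneg_left (le_max_left _ _) hρk.le)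
    have hXY : ∀ x : ℍ, |(DX (Y k)) x| ≤ ρ k * A := by
      intro x
      by_cases hx : x = 0
      · subst hx; rw [map_zero', abs_zero]; positivity
      · have := k2 x hx
        rw [Derivation.map_smul, smul_apply, abs_mul, abs_of_pos (inv_pos.2 hρk),
          inv_mul_le_iff₀ hρk] at this
        exact this.trans (mul_le_mul_of_nonneg_left (le_max_right _ _) hρk.le)
    have hle : ρ k * A ≤ A := mul_le_of_le_one_left hA0 k5.le
    have a1 := D.adm1 k
    have a2 := D.adm2 k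
    have l1 := D.low1 k
    have l2 := D.low2 k
    have hEq := D.eq k ψ (EN_mono hMN k4 hψ)
    rw [k3] at a1 a2 l1 l2 hEq
    have hψD : ∀ x : ℍ, (DX ψ) x = 0 := DX_of_IsE hψ.2
    have e1 := hK P (Y k) ψ hAσ a1 hψD (fun x hx => by
      have b1 := hB σ D.memσ x
      have b2 := hY x
      have b3 := hXY x
      refine ⟨hlowσ x hx, ?_, ?_, l1 x hx, ?_, ?_⟩
      · exact (le_of_abs_le b1.1).trans (by linarith)
      · exact b1.2.trans (by linarith)
      · rw [add_apply]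
        linarith [le_of_abs_le b1.1, le_of_abs_le b2]
      · rw [map_add, add_apply]
        exact (abs_add_le _ _).trans (by linarith [b1.2])) (ρ k * A) M hY hXY hM
    have e2 := hK P (-(Y k)) ψ hAσ (by rw [← sub_eq_add_neg]; exact a2) hψD (fun x hx => by
      have b1 := hB σ D.memσ x
      have b2 := hY x
      have b3 := hXY x
      refine ⟨hlowσ x hx, ?_, ?_, ?_, ?_, ?_⟩
      · exact (le_of_abs_le b1.1).trans (by linarith)
      · exact b1.2.trans (by linarith)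
      · rw [← sub_eq_add_neg]; exact l2 x hx
      · rw [add_apply, neg_apply]
        linarith [le_of_abs_le b1.1, neg_le_of_abs_le b2]
      · rw [map_add, map_neg, add_apply, neg_apply, ← sub_eq_add_neg]
        exact (abs_sub _ _).trans (by linarith [b1.2])) (ρ k * A) M
      (fun x => by rw [neg_apply, abs_neg]; exact hY x)
      (fun x => by rw [map_neg, neg_apply, abs_neg]; exact hXY x) hM
    rw [← sub_eq_add_neg] at e2
    rw [sub_eq_add_neg (LgS _), ip_add_left, ip_neg_left] at hEq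
    have e3 : ∫ x in shell, wf P x * (-(Y k)) x * ψ x = - ∫ x in shell, wf P x * (Y k) x * ψ x := by
      rw [← integral_neg]
      congr 1; funext x; rw [neg_apply]; ring
    rw [e3] at e2
    set I : ℝ := ∫ x in shell, wf P x * (Y k) x * ψ x with hI
    have e4 : |I| ≤ K * (ρ k * A) ^ 2 * M := by
      have f1 := abs_le.1 e1
      have f2 := abs_le.1 e2
      rw [abs_le]
      constructor <;> linarith
    have e5 : ip (fun x => ((ρ k)⁻¹ • Y k) x) (fun x => (wS P) x * ψ x) = (ρ k)⁻¹ * I := by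
      rw [hI, ip, ← integral_const_mul]
      refine setIntegral_congr_fun measurableSet_shell fun x hx => ?_
      simp only [smul_apply, hWS.wS_apply P hAσ x (ne_zero_of_mem_shell hx)]
      ring
    rw [e5, abs_mul, abs_of_pos (inv_pos.2 hρk), inv_mul_le_iff₀ hρk]
    refine e4.trans (le_of_eq ?_)
    ring
  have t1 : Tendsto (fun k => ip (fun x => ((ρ k)⁻¹ • Y k) x) (fun x => (wS P) x * ψ x)) atTop
      (𝓝 (ip z (fun x => (wS P) x * ψ x))) :=
    tendsto_ip (fun k => ((ρ k)⁻¹ • Y k).continuousOn) hz.cont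
      ((wS P).continuousOn.mul ψ.continuousOn) h1
  have t2 : Tendsto (fun k => ip (fun x => ((ρ k)⁻¹ • Y k) x) (fun x => (wS P) x * ψ x)) atTop
      (𝓝 0) := by
    have t3 : Tendsto (fun k => K * A ^ 2 * M * ρ k) atTop (𝓝 0) := by
      have := hρ0.const_mul (K * A ^ 2 * M)
      rwa [mul_zero] at this
    rw [tendsto_zero_iff_abs_tendsto_zero]
    exact squeeze_zero' (Eventually.of_forall fun k => abs_nonneg _) key t3
  have h3 := tendsto_nhds_unique t1 t2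
  rw [← h3]
  simp only [ip]
  congr 1; funext x; ring

end Pool.Agent.MP85963d.H52
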