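import Mathlib
import Pool.Agent.Lib.MP_85963d_gt.H52.PartB

/-!
# Theorem N (Paper section 5)
-/

set_option autoImplicit false

open MeasureTheory Set Filter Topology Quaternion
open scoped Real ContDiff

namespace Pool.Agent.MP85963d

open SF

namespace H52

theorem isU_zero : IsU (0 : SF) := ⟨fun x t => by simp, fun x => by simp⟩

theorem Seqs.comp {p : SF} {c : ℝ} {S : ℕ → ℝ} {Y : ℕ → SF} {N : ℕ → ℕ} {σ : ℝ}
    (D : Seqs p c S Y N σ) {φ : ℕ → ℕ} (hφ : StrictMono φ) :
    Seqs p c (fun k => S (φ k)) (fun k => Y (φ k)) (fun k => N (φ k)) σ where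
  c_pos := D.c_pos
  mem _ := D.mem _
  memσ := D.memσ
  isU _ := D.isU _
  adm1 _ := D.adm1 _
  adm2 _ := D.adm2 _
  low1 _ := D.low1 _
  low2 _ := D.low2 _
  eq _ := D.eq _
  limN := D.limN.comp hφ.tendsto_atTop
  limS := D.limS.comp hφ.tendsto_atTop

theorem avgK_congr {f g : ℍ → ℝ} (h : ∀ x : ℍ, x ≠ 0 → f x = g x) {x : ℍ} (hx : x ≠ 0) :
    avgK f x = avgK g x := by
  unfold avgK
  congr 1
  exact intervalIntegral.integral_congr fun t _ => h _ (rrot_ne_zero isImUnit_K hx t)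

theorem nrm_eq_zero_of {f : ℍ → ℝ} (h : ∀ x : ℍ, x ≠ 0 → f x = 0) : nrm f = 0 := by
  have h1 : nrm f ^ 2 = 0 := by
    rw [nrm_sq]
    have h2 : EqOn (fun x => f x ^ 2) (fun _ => (0:ℝ)) shell := fun x hx => by
      simp only [h x (ne_zero_of_mem_shell hx)]
      norm_num
    rw [setIntegral_congr_fun measurableSet_shell h2]
    simp
  exact pow_eq_zero_iff (two_ne_zero) |>.1 h1

theorem isU_klein {f : ℍ → ℝ} (h : IsU f) : IsKlein f :=
  ⟨fun x => by have := h.rotI x π; rwa [rot_pi] at this, h.mulK⟩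

/-- weakly orthogonal u-functions vanish -/
theorem nrm_zero_of_weak (hDens : DensFacts) (hPsi : PsiFacts) {z : ℍ → ℝ} (hz : Cts z)
    (hzU : IsU z) (h : ∀ n, ∀ ψ ∈ EN n, ip z ψ = 0) : nrm z = 0 := by
  have key : ∀ ε : ℝ, 0 < ε → nrm z ^ 2 ≤ nrm z * (ε * sv) := by
    intro ε hε
    obtain ⟨n, F, hF, hFε⟩ := hDens.un z hz hzU ε hε
    have h1 : ip z F = 0 := by
      rw [← hPsi.pair n F hF z hz hzU]
      exact h n _ (hPsi.mem n F hF)
    have h2 : nrm z ^ 2 = ip z (fun x => z x - F x) := by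
      have h3 := ip_sub_left' hz.cont F.continuousOn hz.cont
      rw [ip_comm, h3, ip_comm F z, h1, sub_zero, nrm_sq']
    rw [h2]
    refine (le_abs_self _).trans ((abs_ip_le hz.cont (hz.cont.sub F.continuousOn)).trans ?_)
    refine mul_le_mul_of_nonneg_left ?_ (nrm_nonneg _)
    exact nrm_le_bound hε.le (fun x hx => hFε x (ne_zero_of_mem_shell hx))
      (hz.cont.sub F.continuousOn)
  by_contra hne
  have hpos : 0 < nrm z := lt_of_le_of_ne (nrm_nonneg _) (Ne.symm hne)
  have hsv := sv_nonneg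
  have h4 := key (nrm z / (2 * (sv + 1))) (by positivity)
  have h5 : nrm z / (2 * (sv + 1)) * sv < nrm z := by
    rw [div_mul_eq_mul_div, div_lt_iff₀ (by positivity)]
    nlinarith
  nlinarith

end H52

open H52

theorem thmN_of (hDeg : DegStatement) (hEner : EnerStatement) (hSmall : SmallStatement)
    (hComp : CompStatement) (hDens : DensFacts) (hPsi : PsiFacts) (hMN : MNFacts)
    (hGauge : GaugeFacts) (hGeo : GeoStatement) (hWS : WSFacts) (hDet : DetFacts) :
    ThmNStatement := by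
  intro m p hm hp hrot hker hneg
  obtain ⟨ε₁, hε₁, c, hc, hS⟩ := hSmall 1 p hWS.adm_one hp
  obtain ⟨ε₂, hε₂, C, hE⟩ := hEner 1 p hWS.adm_one hp
  set r : ℝ := min ε₁ ε₂ with hr
  have hrpos : 0 < r := lt_min hε₁ hε₂
  have hgood : ∀ n, Good p (SecN m n) r c := fun n =>
    { r_pos := hrpos
      c_pos := hc
      adm := fun s hs y hy hyr =>
        (hS s hs y (SecN_le_UN m n hy).2 (hyr.trans (min_le_left _ _)) 1 one_ne_zero).1
      low := fun s hs y hy hyr x hx =>
        (hS s hs y (SecN_le_UN m n hy).2 (hyr.trans (min_le_left _ _)) x hx).2.1 }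
  have hfreq := hneg.mono fun n hn => partA hDeg hMN hPsi hWS hDet m n p hm hrot r c (hgood n) hn
  obtain ⟨φ, hφ, hφ'⟩ := extraction_of_frequently_atTop hfreq
  choose s hs y hy hy0 hyr heq halt using hφ'
  have hen : ∀ k, ener (y k) ≤ C * nrm (y k) := fun k =>
    hE (s k) (hs k) (φ k) (y k) (hy k).1 ((hyr k).trans (min_le_right _ _)) (heq k)
  have hyU : ∀ k, IsU (y k) := fun k => (SecN_le_UN m _ (hy k)).2
  obtain ⟨φ₁, z, q, hφ₁, hz, hq, hzU, hz0, h1, h2, hd⟩ := hComp y r hyU hyr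
  obtain ⟨σ, hσ, φ₂, hφ₂, hlim⟩ := isCompact_Icc.tendsto_subseq (fun k => hs (φ₁ k))
  have hθ : StrictMono fun k => φ₁ (φ₂ k) := hφ₁.comp hφ₂
  have D : Seqs p c (fun k => s (φ₁ (φ₂ k))) (fun k => y (φ₁ (φ₂ k))) (fun k => φ (φ₁ (φ₂ k))) σ :=
    { c_pos := hc
      mem := fun k => hs _
      memσ := hσ
      isU := fun k => hyU _
      adm1 := fun k => (hgood _).adm _ (hs _) _ (hy _) (hyr _)
      adm2 := fun k => by
        have := (hgood _).adm _ (hs (φ₁ (φ₂ k))) _ ((SecN m _).neg_mem (hy (φ₁ (φ₂ k))))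
          (by rw [ener_neg]; exact hyr _)
        rwa [← sub_eq_add_neg] at this
      low1 := fun k => (hgood _).low _ (hs _) _ (hy _) (hyr _)
      low2 := fun k => by
        have := (hgood _).low _ (hs (φ₁ (φ₂ k))) _ ((SecN m _).neg_mem (hy (φ₁ (φ₂ k))))
          (by rw [ener_neg]; exact hyr _)
        rwa [← sub_eq_add_neg] at this
      eq := fun k => heq _
      limN := (hφ.comp hθ).tendsto_atTop
      limS := hlim }
  have h1' := unif_sub hφ₂.tendsto_atTop h1
  have h2' := unif_sub hφ₂.tendsto_atTop h2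
  by_cases hne : ∃ x : ℍ, x ≠ 0 ∧ z x ≠ 0
  · exact caseA hMN hDens hWS hGauge hGeo hp D hz hq hzU h1' h2' hd hne
  exfalso
  push Not at hne
  -- the norms tend to zero
  set ρ : ℕ → ℝ := fun k => nrm (y (φ₁ (φ₂ k))) with hρ
  have hρpos : ∀ k, 0 < ρ k := fun k =>
    lt_of_le_of_ne (nrm_nonneg _) (fun h => hy0 _ (eq_zero_of_nrm h.symm))
  have hρ0 : Tendsto ρ atTop (𝓝 0) := by
    have t := tendsto_nrm (fun k => (y (φ₁ (φ₂ k))).continuousOn) hz.cont h1'
    rwa [nrm_eq_zero_of hne] at t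
  -- the parameters are eventually 0 or 1
  have hsmall : ∀ᶠ k in atTop, s (φ₁ (φ₂ k)) = 0 ∨ s (φ₁ (φ₂ k)) = 1 := by
    have t : Tendsto (fun k => C * ρ k) atTop (𝓝 0) := by
      have := hρ0.const_mul C
      rwa [mul_zero] at this
    filter_upwards [t.eventually (gt_mem_nhds hrpos)] with k hk
    have := hen (φ₁ (φ₂ k))
    rcases halt (φ₁ (φ₂ k)) with h | h
    · exfalso
      have h3 : ener (y (φ₁ (φ₂ k))) < r := lt_of_le_of_lt this hk
      linarith
    · exact h
  have hσ01 : σ = 0 ∨ σ = 1 := by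
    have hcl : IsClosed ({0, 1} : Set ℝ) := (Set.toFinite _).isClosed
    have := hcl.mem_of_tendsto D.limS (hsmall.mono fun k hk => by simpa using hk)
    simpa using this
  have hσe : ∀ᶠ k in atTop, s (φ₁ (φ₂ k)) = σ := by
    rcases hσ01 with h0 | h0
    · subst h0
      filter_upwards [hsmall, D.limS.eventually (gt_mem_nhds one_pos)] with k k1 k2
      rcases k1 with h | h
      · exact h
      · rw [h] at k2; exact absurd k2 (lt_irrefl _)
    · subst h0
      filter_upwards [hsmall, D.limS.eventually (lt_mem_nhds one_pos)] with k k1 k2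
      rcases k1 with h | h
      · rw [h] at k2; exact absurd k2 (lt_irrefl _)
      · exact h
  -- normalised functions
  have hZU : ∀ k, IsU ((ρ k)⁻¹ • y (φ₁ (φ₂ k)) : SF) := fun k =>
    ((UN _).smul_mem _ (SecN_le_UN m _ (hy (φ₁ (φ₂ k))))).2
  have hZen : ∀ k, ener ((ρ k)⁻¹ • y (φ₁ (φ₂ k))) ≤ C := by
    intro k
    rw [ener_smul, abs_of_pos (inv_pos.2 (hρpos k)), inv_mul_le_iff₀ (hρpos k), mul_comm]
    exact hen _
  have hZn : ∀ k, nrm ((ρ k)⁻¹ • y (φ₁ (φ₂ k)) : SF) = 1 := by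
    intro k
    rw [nrm_SF_smul, abs_of_pos (inv_pos.2 (hρpos k))]
    exact inv_mul_cancel₀ (hρpos k).ne'
  obtain ⟨φ₃, z', q', hφ₃, hz', hq', hzU', hz0', g1, g2, hd'⟩ :=
    hComp (fun k => (ρ k)⁻¹ • y (φ₁ (φ₂ k))) C hZU hZen
  have hn1 : nrm z' = 1 := by
    have t := tendsto_nrm
      (F := fun k x => ((ρ (φ₃ k))⁻¹ • y (φ₁ (φ₂ (φ₃ k))) : SF) x)
      (fun k => ((ρ (φ₃ k))⁻¹ • y (φ₁ (φ₂ (φ₃ k))) : SF).continuousOn) hz'.cont g1
    refine tendsto_nhds_unique t ?_
    refine tendsto_const_nhds.congr fun k => ?_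
    exact (hZn (φ₃ k)).symm
  have hlowσ : ∀ x : ℍ, x ≠ 0 → c ≤ (seg 1 p σ) x := by
    intro x hx
    have := (hS σ hσ 0 isU_zero (by rw [ener_zero]; exact hε₁.le) x hx).2.1
    rwa [add_zero] at this
  have hlin := linearised hMN hWS hp (D.comp hφ₃) (hφ₃.tendsto_atTop.eventually hσe) hlowσ
    (fun k => ρ (φ₃ k)) (fun k => hρpos _) (hρ0.comp hφ₃.tendsto_atTop) hz' hq' g1 g2
  rcases hσ01 with h0 | h0
  · -- the ball
    rw [h0, seg_zero, hWS.wS_one] at hlin
    have h3 : nrm z' = 0 := by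
      refine nrm_zero_of_weak hDens hPsi hz' hzU' fun n ψ hψ => ?_
      rw [← hlin n ψ hψ, ip, ip]
      refine setIntegral_congr_fun measurableSet_shell fun x hx => ?_
      simp only [one_apply (ne_zero_of_mem_shell hx), one_mul]
    rw [h3] at hn1
    exact zero_ne_one hn1
  · -- the body `p`
    rw [h0, seg_one] at hlin
    have hk : ∀ x : ℍ, x ≠ 0 → avgK (fun x => (wS p) x * z' x) x = 0 := by
      refine hDens.zero _ ?_ ?_ hlin
      · exact ⟨(wS p).continuousOn.mul hz'.cont, fun r x hr hx => by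
          rw [(wS p).hom hr, hz'.hom r x hr hx]⟩
      · have k1 := hWS.wS_klein p hp
        have k2 := isU_klein hzU'
        exact ⟨fun x => by rw [k1.mulI x, k2.mulI x], fun x => by rw [k1.mulK x, k2.mulK x]⟩
    have hK : KerK (wf p) z' := by
      intro x hx
      rw [← hk x hx]
      exact avgK_congr (fun x hx => by rw [hWS.wS_apply p hp x hx]) hx
    have hsec : InSec m z' := by
      constructor
      · intro x
        by_cases hx : x = 0
        · subst hx; rw [mul_zero, hz0', neg_zero]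
        · have t1 := unif_pointwise g1 (mul_ne_zero (rot_ne_zero isImUnit_K (π / m)) hx)
          have t2 := (unif_pointwise g1 hx).neg
          refine tendsto_nhds_unique t1 (t2.congr fun k => ?_)
          show -(((ρ (φ₃ k))⁻¹ • y (φ₁ (φ₂ (φ₃ k))) : SF) x) = _
          rw [smul_apply, smul_apply, (hy (φ₁ (φ₂ (φ₃ k)))).2.rot]
          ring
      · intro x
        by_cases hx : x = 0
        · subst hx; rw [mul_zero]
        · have t1 := unif_pointwise g1 (mul_ne_zero qJ_ne_zero hx)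
          have t2 := unif_pointwise g1 hx
          refine tendsto_nhds_unique t1 (t2.congr fun k => ?_)
          rw [smul_apply, smul_apply, (hy (φ₁ (φ₂ (φ₃ k)))).2.mulJ]
    have h3 : nrm z' = 0 := nrm_eq_zero_of (hker z' hz' hzU' hsec hK)
    rw [h3] at hn1
    exact zero_ne_one hn1

end Pool.Agent.MP85963d
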